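import Pool.Agent.L0h29.CS.Conv

/-!
# Project RG: the radial collapse
-/

set_option autoImplicit false

open Set Filter Topology Metric Function MeasureTheory
open scoped Manifold ContDiff

noncomputable section

namespace Pool.Agent.L0h29.RG

open Pool.Agent.Y522 Pool.Agent.N550.KH Pool.Agent.L0h29.CS.Rad

variable {n : ℕ}

theorem lam_deriv_nonneg (t : ℝ) : 0 ≤ deriv lam t := by
  rw [← derivWithin_univ]
  exact (lam_mono.monotoneOn univ).derivWithin_nonneg

theorem psi_ld {z : E n} (hz : psi z ≠ 0) : LD n psi z := by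
  have hlam : 0 < lam (‖z‖ ^ 2) := by
    rcases (lam_nonneg (‖z‖ ^ 2)).eq_or_lt with h5 | h5
    · exfalso
      apply hz
      rw [psi, ← h5, zero_smul]
    · exact h5
  have h1 : HasDerivAt lam (deriv lam (‖z‖ ^ 2)) (‖z‖ ^ 2) :=
    (lam_smooth.differentiable (by simp) _).hasDerivAt
  have h2 : HasFDerivAt (fun w : E n => ‖w‖ ^ 2) (2 • (innerSL ℝ z)) z :=
    (hasStrictFDerivAt_norm_sq z).hasFDerivAt
  have h3 : HasFDerivAt (fun w : E n => lam (‖w‖ ^ 2))
      (deriv lam (‖z‖ ^ 2) • (2 • (innerSL ℝ z) : E n →L[ℝ] ℝ)) z :=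
    HasDerivAt.comp_hasFDerivAt (h₂ := lam) (f := fun w : E n => ‖w‖ ^ 2) z h1 h2
  have h4 := h3.smul (hasFDerivAt_id z)
  refine Pool.Agent.N550.SH.Moeb.LD_of_injective
    (Eventually.of_forall fun y => psi_smooth.contDiffAt) h4 ?_
  rw [injective_iff_map_eq_zero]
  intro v hv
  simp only [ContinuousLinearMap.add_apply, ContinuousLinearMap.smul_apply,
    ContinuousLinearMap.id_apply, ContinuousLinearMap.smulRight_apply, id_eq,
    innerSL_apply_apply, smul_eq_mul, nsmul_eq_mul, Nat.cast_ofNat] at hv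
  set D := deriv lam (‖z‖ ^ 2) with hD
  have hD0 : 0 ≤ D := lam_deriv_nonneg _
  have h5 : inner ℝ z v * (lam (‖z‖ ^ 2) + 2 * D * ‖z‖ ^ 2) = 0 := by
    have h6 := congrArg (fun w => inner ℝ z w) hv
    simp only [inner_add_right, inner_smul_right, inner_zero_right,
      real_inner_self_eq_norm_sq] at h6
    linarith
  have h6 : 0 < lam (‖z‖ ^ 2) + 2 * D * ‖z‖ ^ 2 := by positivity
  have h7 : inner ℝ z v = (0 : ℝ) := by
    rcases mul_eq_zero.1 h5 with h | h
    · exact h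
    · exact absurd h h6.ne'
  rw [h7] at hv
  simp only [mul_zero, zero_smul, add_zero] at hv
  exact (smul_eq_zero.1 hv).resolve_left hlam.ne'

/-- the collapse of the ball of radius `R` -/
def psiR (R : ℝ) (z : E n) : E n := (2 * R) • psi ((2 * R)⁻¹ • z)

theorem psiR_smooth (R : ℝ) : ContDiff ℝ ∞ (psiR R : E n → E n) :=
  (psi_smooth.comp (contDiff_const_smul _)).const_smul _

theorem psiR_norm_arg {R : ℝ} (hR : 0 < R) (z : E n) : ‖(2 * R)⁻¹ • z‖ = ‖z‖ / (2 * R) := by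
  rw [norm_smul, norm_inv, Real.norm_of_nonneg (by positivity), inv_mul_eq_div]

theorem psiR_id {R : ℝ} (hR : 0 < R) {z : E n} (h : 2 * R ≤ ‖z‖) : psiR R z = z := by
  unfold psiR
  rw [psi_id, smul_smul, mul_inv_cancel₀ (by positivity), one_smul]
  rw [psiR_norm_arg hR, le_div_iff₀ (by positivity)]
  linarith

theorem psiR_zero {R : ℝ} (hR : 0 < R) {z : E n} (h : ‖z‖ ≤ 7 / 5 * R) : psiR R z = 0 := by
  unfold psiR
  rw [psi_zero, smul_zero]
  rw [psiR_norm_arg hR, div_pow, div_le_iff₀ (by positivity)]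
  nlinarith [norm_nonneg z]

theorem psiR_ne {R : ℝ} {z : E n} (h : psiR R z ≠ 0) : psi ((2 * R)⁻¹ • z) ≠ 0 := by
  intro hcon
  apply h
  rw [psiR, hcon, smul_zero]

theorem psiR_inj {R : ℝ} (hR : 0 < R) {z z' : E n} (h : psiR R z = psiR R z')
    (h0 : psiR R z ≠ 0) : z = z' := by
  have h1 : psi ((2 * R)⁻¹ • z) = psi ((2 * R)⁻¹ • z') :=
    smul_right_injective _ (by positivity : (2 * R : ℝ) ≠ 0) h
  exact smul_right_injective _ (by positivity : ((2 * R)⁻¹ : ℝ) ≠ 0) (psi_inj h1 (psiR_ne h0))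

theorem psiR_ld {R : ℝ} (hR : 0 < R) {z : E n} (h : psiR R z ≠ 0) : LD n (psiR R) z := by
  have h2R : 2 * R ≠ 0 := by positivity
  have h1 : ∀ (a : ℝ) (_ : a ≠ 0) (w : E n), LD n (fun w : E n => a • w) w := fun a ha w =>
    LD_linear (ContinuousLinearEquiv.smulLeft (Units.mk0 a ha)) w
  exact LD.comp_fun (g := fun w : E n => (2 * R) • w) (f := fun z => psi ((2 * R)⁻¹ • z))
    (h1 _ h2R _) (LD.comp_fun (g := psi) (f := fun z => (2 * R)⁻¹ • z) (psi_ld (psiR_ne h))
      (h1 _ (inv_ne_zero h2R) _))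

theorem psiR_surj {R : ℝ} (hR : 0 < R) {z : E n} (h0 : z ≠ 0) : ∃ z', psiR R z' = z := by
  rcases le_or_gt (2 * R) ‖z‖ with h | h
  · exact ⟨z, psiR_id hR h⟩
  · obtain ⟨w, -, -, hw⟩ := psi_surj (z := (2 * R)⁻¹ • z)
      (smul_ne_zero (by positivity) h0) (by
        rw [psiR_norm_arg hR, div_lt_iff₀ (by positivity)]
        nlinarith [norm_nonneg z])
    refine ⟨(2 * R) • w, ?_⟩
    rw [psiR, smul_smul, inv_mul_cancel₀ (by positivity), one_smul, hw, smul_smul,
      mul_inv_cancel₀ (by positivity), one_smul]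

end Pool.Agent.L0h29.RG
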