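import Pool.Agent.Y522.Basic

/-!
# Project RG: the complement of a point in a simply connected manifold is simply connected
-/

set_option autoImplicit false

open Set Filter Topology Metric Function
open scoped Manifold ContDiff unitInterval

noncomputable section

namespace Pool.Agent.L0h29.RG

open Pool.Agent.Y522

section push

variable {n : ℕ} {N : Type} [TopologicalSpace N]

/-- cut-off functions -/
def ct (a b : ℝ) (t : ℝ) : ℝ := max 0 (min 1 (a - b * t))

theorem ct_cont (a b : ℝ) : Continuous (ct a b) := by unfold ct; fun_prop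

theorem ct_nonneg (a b t : ℝ) : 0 ≤ ct a b t := le_max_left _ _

theorem ct_le (a b t : ℝ) : ct a b t ≤ 1 := max_le zero_le_one (min_le_left _ _)

theorem ct_one {a b t : ℝ} (h : 1 ≤ a - b * t) : ct a b t = 1 := by
  unfold ct
  rw [min_eq_left h]
  exact max_eq_right zero_le_one

theorem ct_zero {a b t : ℝ} (h : a - b * t ≤ 0) : ct a b t = 0 := by
  unfold ct
  exact max_eq_left ((min_le_right _ _).trans h)

variable {c : E n → N}

theorem inv_cont (hc : IsOpenEmbedding c) {x : N} (hx : x ∈ range c) :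
    ContinuousAt (invFun c) x := by
  obtain ⟨z, rfl⟩ := hx
  have h1 : Tendsto (fun w => invFun c (c w)) (𝓝 z) (𝓝 (invFun c (c z))) := by
    have h2 : (fun w => invFun c (c w)) = id := funext fun w => leftInverse_invFun hc.injective w
    rw [h2]
    simp only [leftInverse_invFun hc.injective z]
    exact tendsto_id
  have h3 := hc.map_nhds_eq z
  rw [ContinuousAt, ← h3, tendsto_map'_iff]
  exact h1

theorem push (hn : 3 ≤ n) [T2Space N] (hc : IsOpenEmbedding c) (H : ℝ × ℝ → N)
    (hH : Continuous H) :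
    ∃ H' : ℝ × ℝ → N, Continuous H' ∧ (∀ x, H x ∉ c '' closedBall 0 1 → H' x = H x) ∧
      ∀ x, H' x ≠ c 0 := by
  classical
  have hinv : ∀ z, invFun c (c z) = z := leftInverse_invFun hc.injective
  have hop : ∀ r : ℝ, IsOpen (c '' ball 0 r) := fun r => hc.isOpenMap _ isOpen_ball
  have hcl : ∀ r : ℝ, IsClosed (c '' closedBall 0 r) := fun r =>
    ((isCompact_closedBall _ _).image hc.continuous).isClosed
  set h : ℝ × ℝ → E n := fun x => invFun c (H x) with hh
  have hcH : ∀ x, H x ∈ range c → c (h x) = H x := by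
    rintro x ⟨z, hz⟩
    show c (invFun c (H x)) = H x
    rw [← hz, hinv]
  have hhc : ∀ x, H x ∈ range c → ContinuousAt h x := fun x hx =>
    ContinuousAt.comp (g := invFun c) (f := H) (inv_cont hc hx) hH.continuousAt
  have hball : ∀ x r, H x ∈ c '' ball 0 r → ‖h x‖ < r := by
    rintro x r ⟨z, hz, hzx⟩
    show ‖invFun c (H x)‖ < r
    rw [← hzx, hinv]
    exact mem_ball_zero_iff.1 hz
  have hball' : ∀ x r, H x ∈ range c → ‖h x‖ ≤ r → H x ∈ c '' closedBall 0 r := fun x r hx hr =>
    ⟨h x, mem_closedBall_zero_iff.2 hr, hcH x hx⟩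
  -- the truncated map
  let g : ℝ × ℝ → E n := fun x => if H x ∈ c '' ball 0 2 then ct 3 2 ‖h x‖ • h x else 0
  have hg1 : ∀ x, H x ∈ c '' ball 0 2 → g x = ct 3 2 ‖h x‖ • h x := fun x hx => if_pos hx
  have hg2 : ∀ x, H x ∉ c '' closedBall 0 (3 / 2) → g x = 0 := by
    intro x hx
    show (if H x ∈ c '' ball 0 2 then ct 3 2 ‖h x‖ • h x else 0) = 0
    split_ifs with h1
    · have h2 : 3 / 2 < ‖h x‖ := by
        by_contra hcon
        exact hx (hball' x _ (image_subset_range _ _ h1) (not_lt.1 hcon))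
      rw [ct_zero (by linarith), zero_smul]
    · rfl
  have hgc : Continuous g := by
    rw [continuous_iff_continuousAt]
    intro x
    by_cases hx : H x ∈ c '' ball 0 2
    · have h1 : ContinuousAt (fun y => ct 3 2 ‖h y‖ • h y) x := by
        have h2 := hhc x (image_subset_range _ _ hx)
        exact (ContinuousAt.comp (g := ct 3 2) (ct_cont 3 2).continuousAt h2.norm).smul h2
      refine h1.congr ?_
      filter_upwards [((hop 2).preimage hH).mem_nhds hx] with y hy
      exact (hg1 y hy).symm
    · have h1 : H x ∉ c '' closedBall 0 (3 / 2) := fun hcon =>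
        hx (image_mono (closedBall_subset_ball (by norm_num)) hcon)
      refine (continuousAt_const (y := (0 : E n))).congr ?_
      filter_upwards [((hcl (3 / 2)).isOpen_compl.preimage hH).mem_nhds h1] with y hy
      exact (hg2 y hy).symm
  obtain ⟨φ, hφ, hφg, -⟩ := hgc.exists_contDiff_approx (n := ⊤) (ε := fun _ => (1 / 8 : ℝ))
    continuous_const (fun _ => by norm_num)
  have hdense : Dense (range φ)ᶜ := by
    refine ContDiff.dense_compl_range_of_finrank_lt_finrank (hφ.of_le (by simp)) ?_
    rw [finrank_euclideanSpace, Fintype.card_fin, Module.finrank_prod, Module.finrank_self]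
    omega
  obtain ⟨v, hv, hvr⟩ := hdense.inter_open_nonempty (ball (0 : E n) (1 / 8)) isOpen_ball
    ⟨0, mem_ball_self (by norm_num)⟩
  rw [mem_ball_zero_iff] at hv
  have hφ0 : ∀ x, φ x - v ≠ 0 := by
    intro x hcon
    rw [sub_eq_zero] at hcon
    exact hvr ⟨x, hcon⟩
  have hφ1 : ∀ x, H x ∈ range c → ‖h x‖ ≤ 1 → ‖φ x - v - h x‖ < 1 / 4 := by
    intro x hx hx1
    have h1 : g x = h x := by
      rw [hg1 x (image_mono (closedBall_subset_ball (by norm_num)) (hball' x 1 hx hx1)),
        ct_one (by linarith), one_smul]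
    have h2 := hφg x
    rw [dist_eq_norm, h1] at h2
    have h3 : φ x - v - h x = (φ x - h x) - v := by abel
    rw [h3]
    have := norm_sub_le (φ x - h x) v
    linarith
  let k : ℝ × ℝ → E n := fun x => h x + ct 2 2 ‖h x‖ • (φ x - v - h x)
  have hk0 : ∀ x, H x ∈ range c → k x ≠ 0 := by
    intro x hx hcon
    rcases le_or_gt ‖h x‖ (1 / 2) with h1 | h1
    · have h2 : k x = φ x - v := by
        show h x + ct 2 2 ‖h x‖ • (φ x - v - h x) = _
        rw [ct_one (by linarith), one_smul]
        abel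
      rw [h2] at hcon
      exact hφ0 x hcon
    · rcases le_or_gt ‖h x‖ 1 with h2 | h2
      · have h3 := hφ1 x hx h2
        have h4 : ‖ct 2 2 ‖h x‖ • (φ x - v - h x)‖ ≤ 1 / 4 := by
          rw [norm_smul, Real.norm_of_nonneg (ct_nonneg _ _ _)]
          have := ct_le 2 2 ‖h x‖
          nlinarith [norm_nonneg (φ x - v - h x), ct_nonneg 2 2 ‖h x‖]
        have h5 : h x = -(ct 2 2 ‖h x‖ • (φ x - v - h x)) := eq_neg_of_add_eq_zero_left hcon
        have h6 : ‖h x‖ = ‖ct 2 2 ‖h x‖ • (φ x - v - h x)‖ := by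
          rw [← norm_neg (ct 2 2 ‖h x‖ • (φ x - v - h x)), ← h5]
        linarith
      · have h3 : k x = h x := by
          show h x + ct 2 2 ‖h x‖ • (φ x - v - h x) = _
          rw [ct_zero (by linarith), zero_smul, add_zero]
        rw [h3] at hcon
        rw [hcon, norm_zero] at h2
        linarith
  let H' : ℝ × ℝ → N := fun x => if H x ∈ c '' ball 0 2 then c (k x) else H x
  have h1' : ∀ x, H x ∈ c '' ball 0 2 → H' x = c (k x) := fun x hx => if_pos hx
  have h2' : ∀ x, H x ∉ c '' closedBall 0 1 → H' x = H x := by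
    intro x hx
    show (if H x ∈ c '' ball 0 2 then c (k x) else H x) = H x
    split_ifs with h1
    · have h2 : 1 < ‖h x‖ := by
        by_contra hcon
        exact hx (hball' x _ (image_subset_range _ _ h1) (not_lt.1 hcon))
      have h3 : k x = h x := by
        show h x + ct 2 2 ‖h x‖ • (φ x - v - h x) = _
        rw [ct_zero (by linarith), zero_smul, add_zero]
      rw [h3, hcH x (image_subset_range _ _ h1)]
    · rfl
  refine ⟨H', ?_, h2', fun x hcon => ?_⟩
  · rw [continuous_iff_continuousAt]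
    intro x
    by_cases hx : H x ∈ c '' ball 0 2
    · have h3 : ContinuousAt k x := by
        have h2 := hhc x (image_subset_range _ _ hx)
        exact h2.add ((ContinuousAt.comp (g := ct 2 2) (ct_cont 2 2).continuousAt h2.norm).smul
          ((hφ.continuous.continuousAt.sub continuousAt_const).sub h2))
      refine (ContinuousAt.comp (g := c) hc.continuous.continuousAt h3).congr ?_
      filter_upwards [((hop 2).preimage hH).mem_nhds hx] with y hy
      exact (h1' y hy).symm
    · have h3 : H x ∉ c '' closedBall 0 1 := fun hcon =>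
        hx (image_mono (closedBall_subset_ball (by norm_num)) hcon)
      refine hH.continuousAt.congr ?_
      filter_upwards [((hcl 1).isOpen_compl.preimage hH).mem_nhds h3] with y hy
      exact (h2' y hy).symm
  · by_cases hx : H x ∈ c '' ball 0 2
    · rw [h1' x hx] at hcon
      exact hk0 x (image_subset_range _ _ hx) (hc.injective hcon)
    · have h3 : H x ∉ c '' closedBall 0 1 := fun hcon =>
        hx (image_mono (closedBall_subset_ball (by norm_num)) hcon)
      rw [h2' x h3] at hcon
      exact hx (by rw [hcon]; exact ⟨0, mem_ball_self (by norm_num), rfl⟩)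

/-- the version with an arbitrary compact set off the point -/
theorem push_compact (hn : 3 ≤ n) [T2Space N] (hc : IsOpenEmbedding c) (H : ℝ × ℝ → N)
    (hH : Continuous H) (B : Set (ℝ × ℝ)) (hB : IsCompact B) (hB0 : ∀ x ∈ B, H x ≠ c 0) :
    ∃ H' : ℝ × ℝ → N, Continuous H' ∧ (∀ x ∈ B, H' x = H x) ∧ ∀ x, H' x ≠ c 0 := by
  have h1 : IsOpen (H '' B)ᶜ := (hB.image hH).isClosed.isOpen_compl
  have h2 : c ⁻¹' (H '' B)ᶜ ∈ 𝓝 (0 : E n) := by
    refine (h1.preimage hc.continuous).mem_nhds ?_
    rintro ⟨x, hx, hx0⟩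
    exact hB0 x hx hx0
  obtain ⟨r, hr, hrB⟩ := Metric.mem_nhds_iff.1 h2
  have hr2 : r / 2 ≠ 0 := by positivity
  let S : E n ≃ₜ E n := Homeomorph.smulOfNeZero (r / 2) hr2
  have hS : ∀ z, S z = (r / 2) • z := fun z => rfl
  have hc' : IsOpenEmbedding fun z => c (S z) := hc.comp S.isOpenEmbedding
  have hc0 : c (S 0) = c 0 := by rw [hS, smul_zero]
  obtain ⟨H', a1, a2, a3⟩ := push hn hc' H hH
  refine ⟨H', a1, fun x hx => a2 x ?_, fun x => ?_⟩
  · rintro ⟨z, hz, hzx⟩
    rw [mem_closedBall_zero_iff] at hz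
    have h3 : (r / 2) • z ∈ ball (0 : E n) r := by
      rw [mem_ball_zero_iff, norm_smul, Real.norm_of_nonneg (by positivity)]
      nlinarith
    exact hrB h3 ⟨x, hx, hzx.symm⟩
  · exact fun hcon => a3 x (hcon.trans hc0.symm)

end push

/-- the complement of a point is simply connected -/
theorem simplyConnected_compl {n : ℕ} (hn : 3 ≤ n) {N : Type} [TopologicalSpace N] [T2Space N]
    [SimplyConnectedSpace N] {c : E n → N} (hc : IsOpenEmbedding c) :
    SimplyConnectedSpace ({c 0}ᶜ : Set N) := by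
  have hproj : Continuous fun x : ℝ × ℝ =>
      ((projIcc (0 : ℝ) 1 zero_le_one x.1, projIcc (0 : ℝ) 1 zero_le_one x.2) : I × I) :=
    (continuous_projIcc.comp continuous_fst).prodMk (continuous_projIcc.comp continuous_snd)
  have hpc : PathConnectedSpace ({c 0}ᶜ : Set N) := by
    rw [← isPathConnected_iff_pathConnectedSpace]
    obtain ⟨e, he⟩ : ∃ e : E n, e ≠ 0 := by
      refine ⟨EuclideanSpace.single ⟨0, by omega⟩ (1 : ℝ), ?_⟩
      rw [← norm_pos_iff, PiLp.norm_single]
      simp
    refine ⟨c e, fun h => he (hc.injective h), fun {y} hy => ?_⟩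
    have hx : c e ≠ c 0 := fun h => he (hc.injective h)
    obtain ⟨γ⟩ := PathConnectedSpace.joined (c e) y
    let H : ℝ × ℝ → N := fun x => γ (projIcc (0 : ℝ) 1 zero_le_one x.2)
    have hH : Continuous H := γ.continuous.comp (continuous_projIcc.comp continuous_snd)
    have h0 : H (0, 0) = c e := by
      show γ (projIcc (0 : ℝ) 1 zero_le_one 0) = c e
      rw [projIcc_left]
      exact γ.source
    have h1 : H (0, 1) = y := by
      show γ (projIcc (0 : ℝ) 1 zero_le_one 1) = y
      rw [projIcc_right]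
      exact γ.target
    obtain ⟨H', a1, a2, a3⟩ := push_compact hn hc H hH {(0, 0), (0, 1)}
      (((finite_singleton _).insert _).isCompact) (by
        rintro x (hx' | hx')
        · rw [hx', h0]; exact hx
        · rw [mem_singleton_iff] at hx'
          rw [hx', h1]; exact hy)
    refine ⟨⟨⟨fun t => H' (0, (t : ℝ)), by fun_prop⟩, ?_, ?_⟩, fun t => a3 _⟩
    · show H' (0, ((0 : I) : ℝ)) = c e
      rw [Icc.coe_zero, a2 _ (Or.inl rfl), h0]
    · show H' (0, ((1 : I) : ℝ)) = y
      rw [Icc.coe_one, a2 _ (Or.inr rfl), h1]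
  rw [simply_connected_iff_paths_homotopic']
  refine ⟨hpc, fun {x y} p q => ?_⟩
  have hval : Continuous (Subtype.val : ({c 0}ᶜ : Set N) → N) := continuous_subtype_val
  obtain ⟨F⟩ := SimplyConnectedSpace.paths_homotopic (p.map hval) (q.map hval)
  let H : ℝ × ℝ → N := fun x =>
    F (projIcc (0 : ℝ) 1 zero_le_one x.1, projIcc (0 : ℝ) 1 zero_le_one x.2)
  have hH : Continuous H := F.continuous.comp hproj
  have hHe : ∀ s t : I, H ((s : ℝ), (t : ℝ)) = F (s, t) := by
    intro s t
    show F (projIcc (0 : ℝ) 1 zero_le_one s, projIcc (0 : ℝ) 1 zero_le_one t) = F (s, t)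
    rw [projIcc_val, projIcc_val]
  let B : Set (ℝ × ℝ) := (fun z : I × I => ((z.1 : ℝ), (z.2 : ℝ))) ''
    {z | z.1 = 0 ∨ z.1 = 1 ∨ z.2 = 0 ∨ z.2 = 1}
  have hBc : IsCompact B := by
    refine IsCompact.image ?_ (by fun_prop)
    refine IsClosed.isCompact ?_
    refine (isClosed_eq continuous_fst continuous_const).union ?_
    refine (isClosed_eq continuous_fst continuous_const).union ?_
    exact (isClosed_eq continuous_snd continuous_const).union
      (isClosed_eq continuous_snd continuous_const)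
  have hB0 : ∀ z ∈ B, H z ≠ c 0 := by
    rintro _ ⟨⟨s, t⟩, hst, rfl⟩
    simp only at hst ⊢
    rw [hHe]
    rcases hst with h | h | h | h
    · have h1 : s = 0 := h
      rw [h1, F.apply_zero]
      exact (p t).2
    · have h1 : s = 1 := h
      rw [h1, F.apply_one]
      exact (q t).2
    · have h1 : t = 0 := h
      rw [h1, F.source]
      exact x.2
    · have h1 : t = 1 := h
      rw [h1, F.target]
      exact y.2
  obtain ⟨H', a1, a2, a3⟩ := push_compact hn hc H hH B hBc hB0
  have a2' : ∀ s t : I, (s = 0 ∨ s = 1 ∨ t = 0 ∨ t = 1) → H' ((s : ℝ), (t : ℝ)) = F (s, t) := by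
    intro s t hst
    rw [a2 _ ⟨(s, t), hst, rfl⟩, hHe]
  refine ⟨{
    toFun := fun z => ⟨H' ((z.1 : ℝ), (z.2 : ℝ)), a3 _⟩
    continuous_toFun := by
      refine Continuous.subtype_mk ?_ _
      fun_prop
    map_zero_left := fun t => ?_
    map_one_left := fun t => ?_
    prop' := fun s t ht => ?_ }⟩
  · apply Subtype.ext
    show H' (((0 : I) : ℝ), (t : ℝ)) = _
    rw [a2' 0 t (Or.inl rfl), F.apply_zero]
    rfl
  · apply Subtype.ext
    show H' (((1 : I) : ℝ), (t : ℝ)) = _
    rw [a2' 1 t (Or.inr (Or.inl rfl)), F.apply_one]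
    rfl
  · apply Subtype.ext
    show H' ((s : ℝ), (t : ℝ)) = _
    rcases ht with h | h
    · have h1 : t = 0 := h
      rw [h1, a2' s 0 (Or.inr (Or.inr (Or.inl rfl))), F.source]
      show x.1 = (p 0).1
      rw [p.source]
    · have h1 : t = 1 := h
      rw [h1, a2' s 1 (Or.inr (Or.inr (Or.inr rfl))), F.target]
      show y.1 = (p 1).1
      rw [p.target]

end Pool.Agent.L0h29.RG
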