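import Pool.Agent.L0h29.RG.Amb
import Pool.Agent.L0h29.RG.Psi
import Pool.Agent.L0h29.RG.Push
import Pool.Agent.N550.TS.Flm
import Mathlib.Topology.Covering.Basic

/-!
# Project RG: the normal form
-/

set_option autoImplicit false
set_option linter.unusedSectionVars false

open Set Filter Topology Metric Function MeasureTheory
open scoped Manifold ContDiff

noncomputable section

namespace Pool.Agent.L0h29.RG

open Pool.Agent.Y522 Pool.Agent.N550.KH Pool.Agent.N550.KH.One Pool.Agent.N550.KH.Supp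
  Pool.Agent.L0h29.CS Pool.Agent.N550.TS.Flm

section count

variable {n : ℕ} {M N : Type} [TopologicalSpace M] [ChartedSpace (E n) M]
  [TopologicalSpace N] [ChartedSpace (E n) N]

/-- the number of preimages -/
def cnt {M N : Type} (f : M → N) (y : N) : ℕ := Set.ncard (f ⁻¹' {y})

theorem covering [CompactSpace M] [T2Space M] [T2Space N] {f : M → N} (hf : Continuous f)
    {O : Set N} (hld : ∀ x, f x ∈ O → LD n f x) : IsCoveringMapOn f O := by
  refine IsCoveringMapOn.of_isLocalHomeomorphOn hf (IsLocalHomeomorphOn.mk f _ fun x hx => ?_)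
  obtain ⟨Φ, hΦ, hf'⟩ := hld x hx
  exact ⟨Φ.toOpenPartialHomeomorph, hΦ, hf'⟩

theorem cnt_const [CompactSpace M] [T2Space M] [T2Space N] {f : M → N} (hf : Continuous f)
    {O : Set N} (hld : ∀ x, f x ∈ O → LD n f x) {S : Set N} (hS : IsPreconnected S) (hSO : S ⊆ O)
    {y y' : N} (hy : y ∈ S) (hy' : y' ∈ S) : cnt f y = cnt f y' := by
  have hcov := covering hf hld
  have hloc : ∀ y ∈ O, ∀ᶠ y' in 𝓝 y, cnt f y' = cnt f y := by
    intro y hy
    obtain ⟨hd, U, hyU, hU, hfU, H, hH⟩ := hcov y hy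
    have key : ∀ y' ∈ U, cnt f y' = Nat.card (f ⁻¹' {y}) := by
      intro y' hy'
      have h1 : IsEvenlyCovered f y' (f ⁻¹' {y}) := ⟨hd, U, hy', hU, hfU, H, hH⟩
      exact (Nat.card_congr h1.fiberHomeomorph.toEquiv).symm
    filter_upwards [hU.mem_nhds hyU] with y' hy'
    exact key y' hy'
  refine IsPreconnected.constant hS (f := cnt f) (fun y hy => ?_) hy hy'
  refine ContinuousAt.continuousWithinAt ?_
  exact (continuousAt_const (y := cnt f y)).congr
    ((hloc y (hSO hy)).mono fun y' h => h.symm)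

theorem openEmb {c : E n → N} (hi : Injective c) (hl : ∀ z, LD n c z) : IsOpenEmbedding c :=
  IsOpenEmbedding.of_continuous_injective_isOpenMap
    (continuous_iff_continuousAt.2 fun z => (hl z).continuousAt) hi
    fun _ hs => isOpen_image_of_LD (n := n) hs fun z _ => hl z

end count

section collapse

variable {n : ℕ} {N : Type} [TopologicalSpace N] [ChartedSpace (E n) N] [T2Space N]
  {c : E n → N} {R : ℝ}

theorem coll_smooth (hi : Injective c) (hl : ∀ z, LD n c z) (hR : 0 < R) (y : N) :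
    ContMDiffAt (𝓡 n) (𝓡 n) ∞ (act c (psiR R)) y :=
  act_smooth hi hl (R := 2 * R) (fun _ hz => psiR_id hR hz) (psiR_smooth R) y

theorem coll_c (hi : Injective c) (z : E n) : act c (psiR R) (c z) = c (psiR R z) :=
  act_range hi _ z

theorem coll_eq (hi : Injective c) {y : N} :
    act c (psiR R) y = c 0 ↔ ∃ z, y = c z ∧ psiR R z = 0 := by
  constructor
  · intro h
    by_cases hy : y ∈ range c
    · obtain ⟨z, rfl⟩ := hy
      rw [coll_c hi] at h
      exact ⟨z, rfl, hi h⟩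
    · rw [act_off _ hy] at h
      exact absurd ⟨0, h.symm⟩ hy
  · rintro ⟨z, rfl, hz⟩
    rw [coll_c hi, hz]

theorem coll_ld (hi : Injective c) (hl : ∀ z, LD n c z) (hR : 0 < R) {y : N}
    (hy : act c (psiR R) y ≠ c 0) : LD n (act c (psiR R)) y := by
  by_cases h : y ∈ range c
  · obtain ⟨z, rfl⟩ := h
    rw [coll_c hi] at hy
    have hz : psiR R z ≠ 0 := fun hcon => hy (by rw [hcon])
    have h1 : invFun c (c z) = z := leftInverse_invFun hi z
    have h2 : LD n (fun y => c (psiR R (invFun c y))) (c z) := by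
      refine LD.comp_fun (g := c) (f := fun y => psiR R (invFun c y)) (hl _) ?_
      refine LD.comp_fun (g := psiR R) (f := invFun c) ?_ (inv_LD hi hl z)
      rw [h1]
      exact psiR_ld hR hz
    exact h2.congr (act_near hi hl _ z)
  · exact (LD.id (n := n) y).congr (act_far hi hl (R := 2 * R) (fun _ hz => psiR_id hR hz) h)

theorem coll_inj (hi : Injective c) (hR : 0 < R) {y y' : N}
    (h : act c (psiR R) y = act c (psiR R) y') (hy : act c (psiR R) y ≠ c 0) : y = y' := by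
  by_cases h1 : y ∈ range c
  · obtain ⟨z, rfl⟩ := h1
    by_cases h2 : y' ∈ range c
    · obtain ⟨z', rfl⟩ := h2
      rw [coll_c hi] at hy h
      rw [coll_c hi] at h
      have hz : psiR R z ≠ 0 := fun hcon => hy (by rw [hcon])
      rw [psiR_inj hR (hi h) hz]
    · rw [coll_c hi, act_off _ h2] at h
      exact absurd ⟨_, h⟩ h2
  · by_cases h2 : y' ∈ range c
    · obtain ⟨z', rfl⟩ := h2
      rw [coll_c hi, act_off _ h1] at h
      exact absurd ⟨_, h.symm⟩ h1
    · rw [act_off _ h1, act_off _ h2] at h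
      exact h

theorem coll_surj (hi : Injective c) (hR : 0 < R) {y : N} (hy : y ≠ c 0) :
    ∃ y', act c (psiR R) y' = y := by
  by_cases h : y ∈ range c
  · obtain ⟨z, rfl⟩ := h
    obtain ⟨z', hz'⟩ := psiR_surj hR (z := z) (fun hcon => hy (by rw [hcon]))
    exact ⟨c z', by rw [coll_c hi, hz']⟩
  · exact ⟨y, act_off _ h⟩

end collapse

/-- a segment to the outside of the ball -/
theorem escape (M N : Type) [TopologicalSpace M] [CompactSpace M] [T2Space M]
    [ChartedSpace (E 4) M] [IsManifold (𝓡 4) ∞ M] [TopologicalSpace N] [CompactSpace N]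
    [T2Space N] [ChartedSpace (E 4) N] [IsManifold (𝓡 4) ∞ N] (f : M → N) (Z : Set N)
    (hf : Inw 4 f Z) (c : E 4 → N) (hi : Injective c) (hl : ∀ z, LD 4 c z) (R : ℝ) (hR : 0 < R)
    (z₁ : E 4) (hz₁ : c z₁ ∈ Reg 4 f Z) (hz₁R : ‖z₁‖ ≤ R) :
    ∃ (S : Set N) (z₃ : E 4), IsPreconnected S ∧ S ⊆ Reg 4 f Z ∧ c z₁ ∈ S ∧ c z₃ ∈ S ∧
      R < ‖z₃‖ := by
  set T : ℝ := 3 * R with hT
  have hT0 : 0 < T := by positivity
  let A : E (1 + 3) → E (1 + 3) := fun w => T • w + (z₁ : E (1 + 3))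
  have hAi : Injective A := by
    intro w w' h
    have h1 : T • w = T • w' := add_right_cancel h
    exact smul_right_injective _ hT0.ne' h1
  have hAl : ∀ w, LD (1 + 3) A w := fun w =>
    LD.comp_fun (g := fun y : E (1 + 3) => y + (z₁ : E (1 + 3))) (f := fun w => T • w)
      (LD_add_const _ _)
      (LD_linear (ContinuousLinearEquiv.smulLeft (Units.mk0 T hT0.ne')) w)
  have hcc : Continuous c := continuous_iff_continuousAt.2 fun z => (hl z).continuousAt
  have hAc : Continuous A := continuous_iff_continuousAt.2 fun z => (hAl z).continuousAt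
  have h1 : c ⁻¹' Reg 4 f Z ∈ 𝓝 z₁ := hcc.continuousAt ((isOpen_reg hf).mem_nhds hz₁)
  obtain ⟨δ, hδ, hδc⟩ := Metric.mem_nhds_iff.1 h1
  obtain ⟨y0, hy0, hreg⟩ := slice 1 3 (by norm_num) M N f Z hf (fun w => c (A w))
    (fun w w' h => hAi (hi h)) (fun w => LD.comp_fun (g := c) (f := A) (hl _) (hAl w)) (δ / T)
    (by positivity)
  rw [lt_div_iff₀ hT0] at hy0
  set w₂ : E (1 + 3) := jn 1 3 0 y0 with hw₂
  have hw₂n : ‖w₂‖ = ‖y0‖ := by
    have h2 : ‖w₂‖ ^ 2 = ‖y0‖ ^ 2 := by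
      rw [EuclideanSpace.norm_sq_eq, EuclideanSpace.norm_sq_eq, Fin.sum_univ_add]
      simp [hw₂, jn]
    exact (sq_eq_sq₀ (norm_nonneg _) (norm_nonneg _)).1 h2
  have hv2 : vp 1 3 w₂ = y0 := vp_jn _ _ _ _
  -- a far point
  obtain ⟨u, hu⟩ : ∃ u : E 1, ‖u‖ = 1 := ⟨EuclideanSpace.single 0 (1 : ℝ), by
    rw [PiLp.norm_single]; simp⟩
  set w₃ : E (1 + 3) := jn 1 3 u y0 with hw₃
  have hw₃n : 1 ≤ ‖w₃‖ := by
    have h2 : ‖w₃‖ ^ 2 = ‖u‖ ^ 2 + ‖y0‖ ^ 2 := by
      rw [EuclideanSpace.norm_sq_eq, EuclideanSpace.norm_sq_eq, EuclideanSpace.norm_sq_eq,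
        Fin.sum_univ_add]
      simp [hw₃, jn]
    rw [hu] at h2
    nlinarith [norm_nonneg w₃, norm_nonneg y0]
  have hv3 : vp 1 3 w₃ = y0 := vp_jn _ _ _ _
  let L : Set (E 4) := A '' {w | vp 1 3 w = y0}
  have hL : IsPreconnected L := by
    refine IsPreconnected.image ?_ A hAc.continuousOn
    exact (convex_singleton y0).linear_preimage (vp 1 3).toLinearMap |>.isPreconnected
  have hA2 : A w₂ ∈ ball z₁ δ := by
    rw [mem_ball, dist_eq_norm]
    have h2 : A w₂ - z₁ = T • w₂ := by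
      show T • w₂ + (z₁ : E (1 + 3)) - z₁ = T • w₂
      exact add_sub_cancel_right _ _
    rw [h2, norm_smul, Real.norm_of_nonneg hT0.le, hw₂n]
    linarith
  have hS : IsPreconnected (segment ℝ z₁ (A w₂) ∪ L) :=
    IsPreconnected.union (A w₂) (right_mem_segment ℝ _ _) ⟨w₂, hv2, rfl⟩
      (convex_segment _ _).isPreconnected hL
  refine ⟨c '' (segment ℝ z₁ (A w₂) ∪ L), A w₃, hS.image c hcc.continuousOn, ?_,
    ⟨z₁, Or.inl (left_mem_segment ℝ _ _), rfl⟩, ⟨A w₃, Or.inr ⟨w₃, hv3, rfl⟩, rfl⟩, ?_⟩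
  · rintro _ ⟨z, hz | ⟨w, hw, rfl⟩, rfl⟩
    · exact hδc ((convex_ball z₁ δ).segment_subset (mem_ball_self hδ) hA2 hz)
    · exact hreg w hw
  · have h2 : ‖T • w₃‖ ≤ ‖A w₃‖ + ‖z₁‖ := by
      have h3 : T • w₃ = A w₃ - (z₁ : E (1 + 3)) := by
        show T • w₃ = T • w₃ + (z₁ : E (1 + 3)) - z₁
        rw [add_sub_cancel_right]
      rw [h3]
      exact norm_sub_le _ _
    rw [norm_smul, Real.norm_of_nonneg hT0.le] at h2
    nlinarith

/-- the normal form -/
theorem normal (M N : Type) [TopologicalSpace M] [CompactSpace M] [T2Space M]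
    [ChartedSpace (E 4) M] [IsManifold (𝓡 4) ∞ M] [TopologicalSpace N] [CompactSpace N]
    [T2Space N] [ChartedSpace (E 4) N] [IsManifold (𝓡 4) ∞ N] [SimplyConnectedSpace N]
    (a d : ℕ) (b : E 4 → N)
    (l : Fin a → E (1 + 3) → N) (K : Set N) (h : Fin d → E (2 + 2) → N) (c : E 4 → N)
    (H : Pool.Agent.N550.TS.Handles2 N a d b l K h c) (f : M → N) (Z : Set N)
    (hf : Inw 4 f Z) :
    ∃ (g : M → N) (k : ℕ), (∀ x, ContMDiffAt (𝓡 4) (𝓡 4) ∞ g x) ∧
      (∀ x, g x ≠ c 0 → LD 4 g x) ∧ (∀ y, y ≠ c 0 → cnt g y = k) ∧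
      ∀ y ∈ Reg 4 f Z, cnt f y = k := by
  obtain ⟨κ, R, hR, hκ, hκR⟩ := amb M N a d b l K h c H f Z hf
  have hf' := hf.comp hκ
  rw [← reg_comp hκ] at hκR
  set f' : M → N := fun x => κ (f x) with hf'd
  set Z' : Set N := κ '' Z with hZ'
  have hci := H.c_inj
  have hcl := H.c_ld
  have hcc : Continuous c := continuous_iff_continuousAt.2 fun z => (hcl z).continuousAt
  let g : M → N := fun x => act c (psiR R) (f' x)
  -- the critical region
  have hout : ∀ x, g x ≠ c 0 → f' x ∉ c '' closedBall 0 R := by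
    rintro x hx ⟨z, hz, hzx⟩
    apply hx
    show act c (psiR R) (f' x) = c 0
    rw [← hzx, coll_c hci, psiR_zero hR]
    rw [mem_closedBall_zero_iff] at hz
    nlinarith
  have hld : ∀ x, f' x ∉ c '' closedBall 0 R → LD 4 f' x := fun x hx => (hκR _ hx).2 x rfl
  have hgld : ∀ x, g x ≠ c 0 → LD 4 g x := fun x hx =>
    LD.comp_fun (g := act c (psiR R)) (f := f') (coll_ld hci hcl hR hx) (hld x (hout x hx))
  have hgs : ∀ x, ContMDiffAt (𝓡 4) (𝓡 4) ∞ g x := by
    intro x
    by_cases hx : f' x ∈ c '' ball 0 (7 / 5 * R)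
    · have ho : IsOpen (c '' ball 0 (7 / 5 * R)) :=
        isOpen_image_of_LD (n := 4) isOpen_ball fun z _ => hcl z
      refine (contMDiffAt_const (c := c 0)).congr_of_eventuallyEq ?_
      filter_upwards [(ho.preimage hf'.cont).mem_nhds hx] with y hy
      obtain ⟨z, hz, hzy⟩ := hy
      show act c (psiR R) (f' y) = c 0
      rw [← hzy, coll_c hci, psiR_zero hR (mem_ball_zero_iff.1 hz).le]
    · have h1 : f' x ∉ c '' closedBall 0 R := fun hcon =>
        hx (image_mono (closedBall_subset_ball (by nlinarith)) hcon)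
      exact ContMDiffAt.comp (g := act c (psiR R)) x (coll_smooth hci hcl hR _)
        (hld x h1).contMDiffAt
  have hgc : Continuous g := continuous_iff_continuousAt.2 fun x => (hgs x).continuousAt
  -- connectedness
  have hsc := simplyConnected_compl (n := 4) (by norm_num) (openEmb hci hcl)
  have hpre : IsPreconnected ({c 0}ᶜ : Set N) := by
    have h1 : IsPathConnected ({c 0}ᶜ : Set N) :=
      isPathConnected_iff_pathConnectedSpace.2 inferInstance
    exact h1.isConnected.isPreconnected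
  obtain ⟨e, he⟩ : ∃ e : E 4, e ≠ 0 := ⟨EuclideanSpace.single 0 (1 : ℝ), by
    rw [← norm_pos_iff, PiLp.norm_single]; simp⟩
  have hce : c e ≠ c 0 := fun hcon => he (hci hcon)
  have hk : ∀ y, y ≠ c 0 → cnt g y = cnt g (c e) := fun y hy =>
    cnt_const (n := 4) hgc (O := {c 0}ᶜ) hgld hpre Subset.rfl hy hce
  refine ⟨g, cnt g (c e), hgs, hgld, hk, fun y hy => ?_⟩
  -- the number of the preimages
  have hκc : ∀ y, cnt f' (κ y) = cnt f y := by
    intro y
    have h1 : f' ⁻¹' {κ y} = f ⁻¹' {y} := by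
      ext x
      exact ⟨fun hx => hκ.1.1 hx, fun hx => congrArg κ hx⟩
    unfold cnt
    rw [h1]
  have hy' : κ y ∈ Reg 4 f' Z' := by
    rw [reg_comp hκ]
    exact ⟨y, hy, rfl⟩
  rw [← hκc]
  -- outside of the ball
  have hfar : ∀ y', y' ∉ c '' closedBall 0 (7 / 5 * R) → act c (psiR R) y' ≠ c 0 →
      cnt f' y' = cnt g (c e) := by
    intro y' _ hy0
    rw [← hk _ hy0]
    have h1 : f' ⁻¹' {y'} = g ⁻¹' {act c (psiR R) y'} := by
      ext x
      constructor
      · intro hx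
        show act c (psiR R) (f' x) = _
        rw [show f' x = y' from hx]
      · intro hx
        have h2 : act c (psiR R) (f' x) = act c (psiR R) y' := hx
        exact coll_inj hci hR h2 (by rw [h2]; exact hy0)
    unfold cnt
    rw [h1]
  have hbig : ∀ y', y' ∉ c '' closedBall 0 (2 * R) → cnt f' y' = cnt g (c e) := by
    intro y' hy2
    refine hfar y' (fun hcon => hy2 (image_mono (closedBall_subset_closedBall (by nlinarith)) hcon))
      fun hcon => ?_
    obtain ⟨z, rfl, hz⟩ := (coll_eq hci).1 hcon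
    rcases le_or_gt ‖z‖ (2 * R) with h3 | h3
    · exact hy2 ⟨z, mem_closedBall_zero_iff.2 h3, rfl⟩
    · rw [psiR_id hR h3.le] at hz
      rw [hz, norm_zero] at h3
      linarith
  by_cases hin : κ y ∈ c '' closedBall 0 (2 * R)
  · obtain ⟨z₁, hz₁, hz₁y⟩ := hin
    obtain ⟨S, z₃, hS1, hS2, hS3, hS4, hS5⟩ := escape M N f' Z' hf' c hci hcl (2 * R)
      (by positivity) z₁ (by rw [hz₁y]; exact hy') (mem_closedBall_zero_iff.1 hz₁)
    rw [← hz₁y, cnt_const (n := 4) hf'.cont (O := Reg 4 f' Z') (fun x hx => hx.2 x rfl) hS1 hS2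
      hS3 hS4]
    apply hbig
    rintro ⟨z, hz, hzz⟩
    rw [hci hzz, mem_closedBall_zero_iff] at hz
    linarith
  · exact hbig _ hin

end Pool.Agent.L0h29.RG
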