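import Pool.Agent.L0h29.RG.Norm
import Pool.Agent.L0h29.BL.Hom

/-!
# Project RG: operations with maps in normal form
-/

set_option autoImplicit false
set_option linter.unusedSectionVars false

open Set Filter Topology Metric Function MeasureTheory
open scoped Manifold ContDiff

noncomputable section

namespace Pool.Agent.L0h29.RG

open Pool.Agent.Y522 Pool.Agent.N550.KH Pool.Agent.N550.KH.One Pool.Agent.N550.KH.Supp
  Pool.Agent.L0h29.CS Pool.Agent.N550.TS.Flm

variable {M N : Type} [TopologicalSpace M] [ChartedSpace (E 4) M]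
  [TopologicalSpace N] [ChartedSpace (E 4) N]

/-- maps in normal form -/
structure NF (g : M → N) (y₀ : N) (k : ℕ) : Prop where
  sm : ∀ x, ContMDiffAt (𝓡 4) (𝓡 4) ∞ g x
  ld : ∀ x, g x ≠ y₀ → LD 4 g x
  ct : ∀ y, y ≠ y₀ → cnt g y = k

theorem NF.cont {g : M → N} {y₀ : N} {k : ℕ} (h : NF g y₀ k) : Continuous g :=
  continuous_iff_continuousAt.2 fun x => (h.sm x).continuousAt

theorem NF.post {g : M → N} {y₀ : N} {k : ℕ} (h : NF g y₀ k) {K : N → N} (hK : IsDf 4 K) :
    NF (fun x => K (g x)) (K y₀) k := by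
  refine ⟨fun x => ContMDiffAt.comp (g := K) x (hK.2 _).contMDiffAt (h.sm x), fun x hx => ?_,
    fun y hy => ?_⟩
  · exact LD.comp_fun (g := K) (f := g) (hK.2 _) (h.ld x fun hcon => hx (by
      show K (g x) = K y₀
      rw [hcon]))
  · obtain ⟨y', rfl⟩ := hK.1.2 y
    have h1 : (fun x => K (g x)) ⁻¹' {K y'} = g ⁻¹' {y'} := by
      ext x
      exact ⟨fun hx => hK.1.1 hx, fun hx => congrArg K hx⟩
    have h2 := h.ct y' (fun hcon => hy (by rw [hcon]))
    unfold cnt at h2 ⊢
    rw [h1, h2]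

theorem NF.pre {g : M → N} {y₀ : N} {k : ℕ} (h : NF g y₀ k) {K : M → M} (hK : IsDf 4 K) :
    NF (fun x => g (K x)) y₀ k := by
  refine ⟨fun x => ContMDiffAt.comp (g := g) x (h.sm _) (hK.2 x).contMDiffAt, fun x hx => ?_,
    fun y hy => ?_⟩
  · exact LD.comp_fun (g := g) (f := K) (h.ld _ hx) (hK.2 x)
  · obtain ⟨K', h1, h2, -⟩ := IsDf_inv hK
    have h3 : (fun x => g (K x)) ⁻¹' {y} = K' '' (g ⁻¹' {y}) := by
      ext x
      constructor
      · intro hx
        exact ⟨K x, hx, h1 x⟩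
      · rintro ⟨z, hz, rfl⟩
        show g (K (K' z)) = y
        rw [h2]
        exact hz
    have h4 := h.ct y hy
    unfold cnt at h4 ⊢
    rw [h3, ncard_image_of_injective, h4]
    intro a b hab
    rw [← h2 a, hab, h2]

theorem NF.coll [T2Space N] {g : M → N} {k : ℕ} {c : E 4 → N} (hi : Injective c)
    (hl : ∀ z, LD 4 c z) {R : ℝ} (hR : 0 < R) (h : NF g (c 0) k) :
    NF (fun x => act c (psiR R) (g x)) (c 0) k := by
  have h0 : act c (psiR R) (c 0) = c 0 := by
    rw [coll_c hi, psiR_zero hR]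
    rw [norm_zero]
    positivity
  refine ⟨fun x => ContMDiffAt.comp (g := act c (psiR R)) x (coll_smooth hi hl hR _) (h.sm x),
    fun x hx => ?_, fun y hy => ?_⟩
  · refine LD.comp_fun (g := act c (psiR R)) (f := g) (coll_ld hi hl hR hx) (h.ld x ?_)
    intro hcon
    exact hx (by rw [hcon, h0])
  · obtain ⟨y', rfl⟩ := coll_surj hi hR hy
    have h1 : (fun x => act c (psiR R) (g x)) ⁻¹' {act c (psiR R) y'} = g ⁻¹' {y'} := by
      ext x
      constructor
      · intro hx
        have h2 : act c (psiR R) (g x) = act c (psiR R) y' := hx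
        exact coll_inj hi hR h2 (by rw [h2]; exact hy)
      · intro hx
        show act c (psiR R) (g x) = _
        rw [show g x = y' from hx]
    have h2 := h.ct y' (fun hcon => hy (by rw [hcon, h0]))
    unfold cnt at h2 ⊢
    rw [h1, h2]

/-- the point is a value -/
theorem NF.exists_zero [CompactSpace M] [Nonempty M] [T2Space N] [PreconnectedSpace N]
    {g : M → N} {y₀ : N} {k : ℕ} (h : NF g y₀ k) : ∃ x, g x = y₀ := by
  by_contra hcon
  push Not at hcon
  have h1 : IsOpen (range g) := by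
    rw [← image_univ]
    exact isOpen_image_of_LD (n := 4) isOpen_univ fun x _ => h.ld x (hcon x)
  have h2 : IsClosed (range g) := (isCompact_range h.cont).isClosed
  have h3 : range g = univ := IsClopen.eq_univ ⟨h2, h1⟩ (range_nonempty g)
  obtain ⟨x, hx⟩ : y₀ ∈ range g := by rw [h3]; trivial
  exact hcon x hx

/-- homogeneity -/
theorem homog [T2Space N] [IsManifold (𝓡 4) ∞ N] [PreconnectedSpace N] (x y : N) :
    ∃ K : N → N, IsDf 4 K ∧ K x = y := by
  refine IsPreconnected.induction₂ (s := (univ : Set N)) isPreconnected_univ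
    (fun x y => ∃ K : N → N, IsDf 4 K ∧ K x = y) (fun x _ => ?_) ?_ ?_
    (mem_univ x) (mem_univ y)
  · rw [nhdsWithin_univ]
    obtain ⟨c, hi, hl, h0⟩ := exists_cell0 (n := 4) x
    have ho : IsOpen (range c) := open_range hl
    filter_upwards [ho.mem_nhds ⟨0, h0⟩] with y hy
    obtain ⟨z, rfl⟩ := hy
    obtain ⟨κ, hκ, hκz, L, hL, -, hLo⟩ := BL.mv isOpen_univ isPreconnected_univ
      (mem_univ (0 : E 4)) (mem_univ z)
    obtain ⟨R, -, hR⟩ := BL.exists_radius hL
    obtain ⟨K, hK, hKc, -⟩ := Supp.main 4 N c hi hl κ ⟨κ.bijective, hκ.1⟩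
      ⟨R, fun z hz => hLo z fun hcon => absurd (hR z hcon) (not_lt.2 hz)⟩
    exact ⟨K, hK, by rw [← h0, hKc, hκz]⟩
  · rintro x y z _ _ _ ⟨K, hK, rfl⟩ ⟨K', hK', rfl⟩
    exact ⟨fun x => K' (K x), isDf_comp hK' hK, rfl⟩
  · rintro x y _ _ ⟨K, hK, rfl⟩
    obtain ⟨K', h1, h2, h3⟩ := IsDf_inv hK
    refine ⟨K', ⟨⟨fun a b hab => ?_, fun a => ⟨K a, h1 a⟩⟩, h3⟩, h1 x⟩
    rw [← h2 a, hab, h2]

/-- smoothness in terms of a local parametrization -/
theorem pull {P Q : Type} [TopologicalSpace P] [ChartedSpace (E 4) P] [TopologicalSpace Q]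
    [ChartedSpace (E 4) Q] {f : N → P} {y : N} (hf : LD 4 f y) {g : P → Q} {r : N → Q}
    (h : ∀ᶠ y' in 𝓝 y, g (f y') = r y') :
    (ContMDiffAt (𝓡 4) (𝓡 4) ∞ r y → ContMDiffAt (𝓡 4) (𝓡 4) ∞ g (f y)) ∧
      (LD 4 r y → LD 4 g (f y)) := by
  obtain ⟨p, hp1, hp2, hp3, hp4⟩ := hf.exists_inverse
  have h1 : g =ᶠ[𝓝 (f y)] fun z => r (p z) := by
    have h2 : Tendsto p (𝓝 (f y)) (𝓝 y) := by
      have := hp1.continuousAt
      rwa [ContinuousAt, hp2] at this
    filter_upwards [h2.eventually h, hp4] with z h3 h4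
    rw [← h3, h4]
  constructor
  · intro hr
    refine ContMDiffAt.congr_of_eventuallyEq ?_ h1
    refine ContMDiffAt.comp (g := r) (f y) ?_ hp1.contMDiffAt
    rw [hp2]
    exact hr
  · intro hr
    refine LD.congr ?_ h1
    refine LD.comp_fun (g := r) (f := p) ?_ hp1
    rw [hp2]
    exact hr

/-- the fibers are finite -/
theorem fiber_finite [CompactSpace M] [T2Space M] [T2Space N] {g : M → N} (hg : Continuous g)
    {y : N} (hld : ∀ x, g x = y → LD 4 g x) : (g ⁻¹' {y}).Finite := by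
  have h1 := (covering (n := 4) hg (O := {y}) hld) y rfl
  have h2 : DiscreteTopology (g ⁻¹' {y}) := h1.1
  have h3 : CompactSpace (g ⁻¹' {y}) :=
    isCompact_iff_compactSpace.1 ((isClosed_singleton.preimage hg).isCompact)
  have h4 : Finite (g ⁻¹' {y}) := finite_of_compact_of_discrete
  exact Set.toFinite _

end Pool.Agent.L0h29.RG
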