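import Pool.Agent.L0h29.RG.NF
import Pool.Agent.L0h29.CS.Sum

/-!
# Project RG: a summand adds a sheet
-/

set_option autoImplicit false
set_option linter.unusedSectionVars false

open Set Filter Topology Metric Function MeasureTheory
open scoped Manifold ContDiff

noncomputable section

namespace Pool.Agent.L0h29.RG

open Pool.Agent.Y522 Pool.Agent.N550.KH Pool.Agent.N550.KH.One Pool.Agent.N550.KH.Supp
  Pool.Agent.L0h29.CS Pool.Agent.N550.TS.Flm Pool.Agent.L0h29.CS.Sqz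

/-- the diffeomorphism onto the ball of radius two -/
def b2 (z : E 4) : E 4 := (2 : ℝ) • bb 4 z

theorem b2_lt (z : E 4) : ‖b2 z‖ < 2 := by
  rw [b2, norm_smul, Real.norm_of_nonneg (by norm_num)]
  have := bb_mem 4 z
  linarith

theorem b2_inj : Injective b2 := fun x y h =>
  Function.LeftInverse.injective (bi_bb 4) (smul_right_injective _ (by norm_num : (2 : ℝ) ≠ 0) h)

theorem b2_zero : b2 0 = 0 := by
  rw [b2, (bb_eq_zero 4 0).2 rfl, smul_zero]

theorem b2_ld (z : E 4) : LD 4 b2 z := by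
  refine LD.comp_fun (g := fun w : E 4 => (2 : ℝ) • w) (f := bb 4)
    (LD_linear (ContinuousLinearEquiv.smulLeft (Units.mk0 (2 : ℝ) (by norm_num))) _) ?_
  refine ld_of_left_inverse (g := bi 4) (Eventually.of_forall fun _ =>
    (bb_smooth 4).contDiffAt) ?_ (Eventually.of_forall fun y => bi_bb 4 y)
  exact ((bi_smooth 4).contDiffAt (isOpen_ball.mem_nhds
    (mem_ball_zero_iff.2 (bb_mem 4 z)))).differentiableAt (by simp)

/-- points of the ball of radius two -/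
theorem b2_surj {w : E 4} (h : ‖w‖ < 2) : ∃ z, b2 z = w ∧ ‖z‖ ^ 2 * (4 - ‖w‖ ^ 2) = ‖w‖ ^ 2 := by
  have h1 : ‖(2 : ℝ)⁻¹ • w‖ < 1 := by
    rw [norm_smul, norm_inv, Real.norm_of_nonneg (by norm_num)]
    linarith
  refine ⟨bi 4 ((2 : ℝ)⁻¹ • w), ?_, ?_⟩
  · rw [b2, bb_bi 4 _ h1, smul_smul]
    norm_num
  · set z := bi 4 ((2 : ℝ)⁻¹ • w) with hz
    have h2 : bb 4 z = (2 : ℝ)⁻¹ • w := bb_bi 4 _ h1
    have h3 := norm_bb_sq 4 z
    rw [h2, norm_smul, norm_inv, Real.norm_of_nonneg (by norm_num : (0 : ℝ) ≤ 2)] at h3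
    have h4 : 0 < 1 + ‖z‖ ^ 2 := by positivity
    rw [eq_div_iff h4.ne'] at h3
    nlinarith

variable {M N M₁ : Type} [TopologicalSpace M] [ChartedSpace (E 4) M]
  [TopologicalSpace N] [ChartedSpace (E 4) N] [TopologicalSpace M₁] [ChartedSpace (E 4) M₁]

/-- a disc as a cell -/
theorem disc_cell {p : E 4 → N} (hp : IsDisc 4 p) :
    Injective (fun z => p (b2 z)) ∧ ∀ z, LD 4 (fun z => p (b2 z)) z :=
  ⟨fun z w h => b2_inj (hp.1 (mem_ball_zero_iff.2 (b2_lt z)) (mem_ball_zero_iff.2 (b2_lt w)) h),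
    fun z => LD.comp_fun (g := p) (f := b2) (hp.2 _ (mem_ball_zero_iff.2 (b2_lt z))) (b2_ld z)⟩

/-- a map in normal form can be made constant on a given disc -/
theorem const_on_disc [CompactSpace M₁] [Nonempty M₁] [T2Space M₁] [PreconnectedSpace M₁]
    [IsManifold (𝓡 4) ∞ M₁] [T2Space N] [PreconnectedSpace N] [IsManifold (𝓡 4) ∞ N]
    {g : M₁ → N} {y₀ : N} {k : ℕ} (h : NF g y₀ k) {q : E 4 → M₁} (hq : IsDisc 4 q) (y₁ : N) :
    ∃ g' : M₁ → N, NF g' y₁ k ∧ ∀ w, ‖w‖ ≤ 1 → g' (q w) = y₁ := by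
  obtain ⟨K, hK, hKy⟩ := homog y₀ y₁
  have h1 := h.post hK
  rw [hKy] at h1
  obtain ⟨c, hi, hl, hc0⟩ := exists_cell0 (n := 4) y₁
  rw [← hc0] at h1 ⊢
  obtain ⟨m, hm⟩ := h1.exists_zero
  have h2 := h1.coll hi hl (R := 1) one_pos
  set g₂ : M₁ → N := fun x => act c (psiR 1) (K (g x)) with hg₂
  have hm2 : ∀ᶠ x in 𝓝 m, g₂ x = c 0 := by
    have ho : IsOpen (c '' ball 0 1) := isOpen_image_of_LD (n := 4) isOpen_ball fun z _ => hl z
    have h3 : ∀ᶠ x in 𝓝 m, K (g x) ∈ c '' ball 0 1 := by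
      refine h1.cont.continuousAt.eventually (ho.mem_nhds ?_)
      exact ⟨0, mem_ball_self one_pos, hm.symm⟩
    filter_upwards [h3] with x hx
    obtain ⟨z, hz, hzx⟩ := hx
    show act c (psiR 1) (K (g x)) = c 0
    rw [← hzx, coll_c hi, psiR_zero one_pos]
    have := mem_ball_zero_iff.1 hz
    linarith
  obtain ⟨Θ, hΘ, hΘq⟩ := homog (q 0) m
  have h3 := h2.pre hΘ
  obtain ⟨hqi, hql⟩ := disc_cell hq
  have h4 : ∀ᶠ z in 𝓝 (0 : E 4), g₂ (Θ (q (b2 z))) = c 0 := by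
    have h5 : Tendsto (fun z => Θ (q (b2 z))) (𝓝 (0 : E 4)) (𝓝 m) := by
      have h6 : ContinuousAt (fun z => Θ (q (b2 z))) 0 :=
        ContinuousAt.comp (g := Θ) (hΘ.2 _).continuousAt (hql 0).continuousAt
      rwa [ContinuousAt, b2_zero, hΘq] at h6
    exact h5.eventually hm2
  obtain ⟨ε, hε, hεb⟩ := Metric.eventually_nhds_iff_ball.1 h4
  obtain ⟨κ, hκ, hκs, hκb⟩ := Shift.main.2.2 4 0 ε 1 hε
  obtain ⟨L, hL, hLq, -⟩ := Supp.main 4 M₁ _ hqi hql κ hκ hκs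
  obtain ⟨L', a1, a2, a3⟩ := IsDf_inv hL
  have hL' : IsDf 4 L' := ⟨⟨fun a b hab => by rw [← a2 a, hab, a2], fun a => ⟨L a, a1 a⟩⟩, a3⟩
  refine ⟨_, h3.pre hL', fun w hw => ?_⟩
  obtain ⟨z, rfl, hz⟩ := b2_surj (w := w) (by linarith)
  have hz1 : z ∈ closedBall (0 : E 4) 1 := by
    rw [mem_closedBall_zero_iff]
    have e1 : ‖b2 z‖ ^ 2 ≤ 1 := by
      have := norm_nonneg (b2 z)
      nlinarith
    have e2 : ‖z‖ ^ 2 * 3 ≤ ‖z‖ ^ 2 * (4 - ‖b2 z‖ ^ 2) :=
      mul_le_mul_of_nonneg_left (by linarith) (sq_nonneg _)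
    have e3 : ‖z‖ ^ 2 ≤ 1 := by linarith
    nlinarith [norm_nonneg z]
  obtain ⟨v, hv, rfl⟩ := hκb hz1
  show g₂ (Θ (L' (q (b2 (κ v))))) = c 0
  have h5 : L' (q (b2 (κ v))) = q (b2 v) := by
    have h6 : L (q (b2 v)) = q (b2 (κ v)) := hLq v
    rw [← h6, a1]
  rw [h5]
  exact hεb v hv

/-- a summand adds a sheet -/
theorem join [CompactSpace M₁] [Nonempty M₁] [T2Space M₁] [PreconnectedSpace M₁]
    [IsManifold (𝓡 4) ∞ M₁] [T2Space N] [PreconnectedSpace N] [IsManifold (𝓡 4) ∞ N]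
    {g : M₁ → N} {y₀ : N} {k : ℕ} (h : NF g y₀ k) (hs : ConnSum 4 M N M₁) :
    ∃ (g' : M → N) (y₁ : N), NF g' y₁ (k + 1) := by
  classical
  obtain ⟨p, q, i, j, hp, hq, hii, hil, hji, hjl, hcov, hij⟩ := hs
  obtain ⟨g₄, hg₄, hg₄q⟩ := const_on_disc h hq (p 0)
  obtain ⟨hpi, hpl⟩ := disc_cell hp
  set c : E 4 → N := fun z => p (b2 z) with hc
  have hc0 : c 0 = p 0 := by show p (b2 0) = p 0; rw [b2_zero]
  set ρ : N → N := act c (psiR (1 / 2)) with hρ
  have hhalf : (0 : ℝ) < 1 / 2 := by norm_num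
  have hρ0 : ∀ w : E 4, ‖w‖ ≤ 11 / 10 → ρ (p w) = p 0 := by
    intro w hw
    obtain ⟨z, hz1, hz2⟩ := b2_surj (w := w) (by linarith)
    have e : p w = c z := by show p w = p (b2 z); rw [hz1]
    rw [e, hρ, coll_c hpi, psiR_zero hhalf, hc0]
    have e1 : ‖w‖ ^ 2 ≤ 121 / 100 := by
      have := norm_nonneg w
      nlinarith
    have e2 : ‖z‖ ^ 2 * (279 / 100) ≤ ‖z‖ ^ 2 * (4 - ‖w‖ ^ 2) :=
      mul_le_mul_of_nonneg_left (by linarith) (sq_nonneg _)
    nlinarith [norm_nonneg z]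
  -- norms of the inverted points
  have hinv : ∀ z : E 4, z ≠ 0 → ‖(‖z‖ ^ 2)⁻¹ • z‖ = ‖z‖⁻¹ := by
    intro z hz
    have hz' : ‖z‖ ≠ 0 := norm_ne_zero_iff.2 hz
    rw [norm_smul, norm_inv, norm_pow, norm_norm]
    field_simp
  have hinv2 : ∀ z : E 4, z ≠ 0 → (‖(‖z‖ ^ 2)⁻¹ • z‖ ^ 2)⁻¹ • ((‖z‖ ^ 2)⁻¹ • z) = z := by
    intro z hz
    have hz' : ‖z‖ ≠ 0 := norm_ne_zero_iff.2 hz
    rw [hinv z hz, smul_smul]
    have : ((‖z‖⁻¹) ^ 2)⁻¹ * (‖z‖ ^ 2)⁻¹ = 1 := by field_simp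
    rw [this, one_smul]
  -- the pieces
  set A : Set N := (p '' closedBall 0 1)ᶜ with hA
  set A' : Set N := (p '' closedBall 0 (1 / 2))ᶜ with hA'
  set B : Set M₁ := (q '' closedBall 0 (10 / 11))ᶜ with hB
  set B' : Set M₁ := (q '' closedBall 0 (1 / 2))ᶜ with hB'
  have hAA' : A ⊆ A' := compl_subset_compl.2 (image_mono (closedBall_subset_closedBall
    (by norm_num)))
  have hBB' : B ⊆ B' := compl_subset_compl.2 (image_mono (closedBall_subset_closedBall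
    (by norm_num)))
  have hpA : ∀ z : E 4, ‖z‖ < 2 → 1 < ‖z‖ → p z ∈ A := by
    rintro z hz hz1 ⟨w, hw, hwz⟩
    rw [mem_closedBall_zero_iff] at hw
    have := hp.1 (mem_ball_zero_iff.2 (by linarith)) (mem_ball_zero_iff.2 hz) hwz
    rw [this] at hw
    linarith
  have hpA' : ∀ z : E 4, ‖z‖ < 2 → 1 / 2 < ‖z‖ → p z ∈ A' := by
    rintro z hz hz1 ⟨w, hw, hwz⟩
    rw [mem_closedBall_zero_iff] at hw
    have := hp.1 (mem_ball_zero_iff.2 (by linarith)) (mem_ball_zero_iff.2 hz) hwz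
    rw [this] at hw
    linarith
  have hqB : ∀ z : E 4, ‖z‖ < 2 → 10 / 11 < ‖z‖ → q z ∈ B := by
    rintro z hz hz1 ⟨w, hw, hwz⟩
    rw [mem_closedBall_zero_iff] at hw
    have := hq.1 (mem_ball_zero_iff.2 (by linarith)) (mem_ball_zero_iff.2 hz) hwz
    rw [this] at hw
    linarith
  have hqB' : ∀ z : E 4, ‖z‖ < 2 → 1 / 2 < ‖z‖ → q z ∈ B' := by
    rintro z hz hz1 ⟨w, hw, hwz⟩
    rw [mem_closedBall_zero_iff] at hw
    have := hq.1 (mem_ball_zero_iff.2 (by linarith)) (mem_ball_zero_iff.2 hz) hwz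
    rw [this] at hw
    linarith
  let F : M → N := fun x => if h1 : ∃ y, y ∈ A ∧ i y = x then ρ h1.choose else
    if h2 : ∃ s, s ∈ B' ∧ j s = x then g₄ h2.choose else p 0
  have hF1 : ∀ y ∈ A, F (i y) = ρ y := by
    intro y hy
    have h1 : ∃ y', y' ∈ A ∧ i y' = i y := ⟨y, hy, rfl⟩
    show (if h1 : ∃ y', y' ∈ A ∧ i y' = i y then ρ h1.choose else _) = ρ y
    rw [dif_pos h1]
    congr 1
    exact hii (hAA' h1.choose_spec.1) (hAA' hy) h1.choose_spec.2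
  have hF2 : ∀ s ∈ B, F (j s) = g₄ s := by
    intro s hs
    by_cases h1 : ∃ y, y ∈ A ∧ i y = j s
    · obtain ⟨y, hy, hyx⟩ := h1
      rw [← hyx, hF1 y hy]
      obtain ⟨z, hz1, hz2, rfl, rfl⟩ := (hij y (hAA' hy) s (hBB' hs)).1 hyx
      have hz0 : z ≠ 0 := by
        rintro rfl
        rw [norm_zero] at hz1
        linarith
      have h3 : 1 < ‖z‖ := by
        by_contra hcon
        exact hy ⟨z, mem_closedBall_zero_iff.2 (not_lt.1 hcon), rfl⟩
      have h4 : 10 / 11 < ‖z‖⁻¹ := by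
        by_contra hcon
        exact hs ⟨_, mem_closedBall_zero_iff.2 (by rw [hinv z hz0]; exact not_lt.1 hcon), rfl⟩
      have h5 : ‖z‖ < 11 / 10 := by
        have h6 : 0 < ‖z‖ := norm_pos_iff.2 hz0
        have h7 : ‖z‖⁻¹ * ‖z‖ = 1 := inv_mul_cancel₀ h6.ne'
        nlinarith
      rw [hρ0 z h5.le, hg₄q]
      rw [hinv z hz0]
      exact inv_le_one_of_one_le₀ h3.le
    · have h2 : ∃ s', s' ∈ B' ∧ j s' = j s := ⟨s, hBB' hs, rfl⟩
      show (if h1 : ∃ y', y' ∈ A ∧ i y' = j s then ρ h1.choose else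
        if h2 : ∃ s', s' ∈ B' ∧ j s' = j s then g₄ h2.choose else p 0) = g₄ s
      rw [dif_neg h1, dif_pos h2]
      congr 1
      exact hji h2.choose_spec.1 (hBB' hs) h2.choose_spec.2
  have hcov2 : ∀ x : M, (∃ y ∈ A, i y = x) ∨ ∃ s ∈ B, j s = x := by
    intro x
    have hx : x ∈ i '' A' ∪ j '' B' := by rw [hcov]; trivial
    rcases hx with ⟨y, hy, rfl⟩ | ⟨s, hs, rfl⟩
    · by_cases h1 : y ∈ A
      · exact Or.inl ⟨y, h1, rfl⟩
      · rw [hA, mem_compl_iff, not_not] at h1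
        obtain ⟨z, hz, rfl⟩ := h1
        rw [mem_closedBall_zero_iff] at hz
        have h2 : 1 / 2 < ‖z‖ := by
          by_contra hcon
          exact hy ⟨z, mem_closedBall_zero_iff.2 (not_lt.1 hcon), rfl⟩
        have hz0 : z ≠ 0 := by
          rintro rfl
          rw [norm_zero] at h2
          linarith
        have h6 : 0 < ‖z‖ := norm_pos_iff.2 hz0
        have h7 : ‖z‖⁻¹ * ‖z‖ = 1 := inv_mul_cancel₀ h6.ne'
        have h8 : q ((‖z‖ ^ 2)⁻¹ • z) ∈ B := by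
          refine hqB _ ?_ ?_
          · rw [hinv z hz0]
            nlinarith [inv_pos.2 h6]
          · rw [hinv z hz0]
            nlinarith [inv_pos.2 h6]
        exact Or.inr ⟨_, h8, ((hij _ hy _ (hBB' h8)).2 ⟨z, h2, by linarith, rfl, rfl⟩).symm⟩
    · by_cases h1 : s ∈ B
      · exact Or.inr ⟨s, h1, rfl⟩
      · rw [hB, mem_compl_iff, not_not] at h1
        obtain ⟨w, hw, rfl⟩ := h1
        rw [mem_closedBall_zero_iff] at hw
        have h2 : 1 / 2 < ‖w‖ := by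
          by_contra hcon
          exact hs ⟨w, mem_closedBall_zero_iff.2 (not_lt.1 hcon), rfl⟩
        have hw0 : w ≠ 0 := by
          rintro rfl
          rw [norm_zero] at h2
          linarith
        have h6 : 0 < ‖w‖ := norm_pos_iff.2 hw0
        have h7 : ‖w‖⁻¹ * ‖w‖ = 1 := inv_mul_cancel₀ h6.ne'
        have h9 : 1 < ‖w‖⁻¹ := by
          by_contra hcon
          nlinarith [not_lt.1 hcon]
        have h10 : ‖w‖⁻¹ < 2 := by
          by_contra hcon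
          nlinarith [not_lt.1 hcon]
        have h8 : p ((‖w‖ ^ 2)⁻¹ • w) ∈ A := by
          refine hpA _ ?_ ?_
          · rw [hinv w hw0]; exact h10
          · rw [hinv w hw0]; exact h9
        refine Or.inl ⟨_, h8, (hij _ (hAA' h8) _ hs).2 ⟨(‖w‖ ^ 2)⁻¹ • w, ?_, ?_, rfl, ?_⟩⟩
        · rw [hinv w hw0]; linarith
        · rw [hinv w hw0]; exact h10
        · rw [hinv2 w hw0]
  have hpc : ContinuousOn p (closedBall 0 1) := fun z hz =>
    (hp.2 z (mem_ball_zero_iff.2 (by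
      rw [mem_closedBall_zero_iff] at hz; linarith))).continuousAt.continuousWithinAt
  have hqc : ContinuousOn q (closedBall 0 (10 / 11)) := fun z hz =>
    (hq.2 z (mem_ball_zero_iff.2 (by
      rw [mem_closedBall_zero_iff] at hz; linarith))).continuousAt.continuousWithinAt
  have hAo : IsOpen A := ((isCompact_closedBall _ _).image_of_continuousOn hpc).isClosed.isOpen_compl
  have hBo : IsOpen B := ((isCompact_closedBall _ _).image_of_continuousOn hqc).isClosed.isOpen_compl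
  have hPA : ∀ y ∈ A, (ContMDiffAt (𝓡 4) (𝓡 4) ∞ ρ y → ContMDiffAt (𝓡 4) (𝓡 4) ∞ F (i y)) ∧
      (LD 4 ρ y → LD 4 F (i y)) := fun y hy =>
    pull (hil y (hAA' hy)) (Filter.eventually_of_mem (hAo.mem_nhds hy) hF1)
  have hPB : ∀ s ∈ B, (ContMDiffAt (𝓡 4) (𝓡 4) ∞ g₄ s → ContMDiffAt (𝓡 4) (𝓡 4) ∞ F (j s)) ∧
      (LD 4 g₄ s → LD 4 F (j s)) := fun s hs =>
    pull (hjl s (hBB' hs)) (Filter.eventually_of_mem (hBo.mem_nhds hs) hF2)
  refine ⟨F, p 0, fun x => ?_, fun x hx => ?_, fun y hy => ?_⟩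
  · rcases hcov2 x with ⟨y, hy, rfl⟩ | ⟨s, hs, rfl⟩
    · exact (hPA y hy).1 (coll_smooth hpi hpl hhalf y)
    · exact (hPB s hs).1 (hg₄.sm s)
  · rcases hcov2 x with ⟨y, hy, rfl⟩ | ⟨s, hs, rfl⟩
    · rw [hF1 y hy, ← hc0] at hx
      exact (hPA y hy).2 (coll_ld hpi hpl hhalf hx)
    · rw [hF2 s hs] at hx
      exact (hPB s hs).2 (hg₄.ld s hx)
  · obtain ⟨y', hy'⟩ := coll_surj hpi hhalf (y := y) (by rw [hc0]; exact hy)
    have hy'A : y' ∈ A := by
      rintro ⟨w, hw, rfl⟩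
      rw [mem_closedBall_zero_iff] at hw
      exact hy (hy'.symm.trans (hρ0 w (by linarith)))
    have hfin : (g₄ ⁻¹' {y}).Finite := fiber_finite hg₄.cont fun x hx =>
      hg₄.ld x (by rw [hx]; exact hy)
    have hsB : ∀ s, g₄ s = y → s ∈ B := by
      rintro s hs ⟨w, hw, rfl⟩
      rw [mem_closedBall_zero_iff] at hw
      exact hy (hs.symm.trans (hg₄q w (by linarith)))
    have hset : F ⁻¹' {y} = insert (i y') (j '' (g₄ ⁻¹' {y})) := by
      ext x
      constructor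
      · intro hx
        have hx' : F x = y := hx
        rcases hcov2 x with ⟨a, ha, rfl⟩ | ⟨s, hs, rfl⟩
        · left
          rw [hF1 a ha] at hx'
          congr 1
          exact coll_inj hpi hhalf (hx'.trans hy'.symm) (by rw [← hρ, hx', hc0]; exact hy)
        · right
          rw [hF2 s hs] at hx'
          exact ⟨s, hx', rfl⟩
      · rintro (rfl | ⟨s, hs, rfl⟩)
        · show F (i y') = y
          rw [hF1 y' hy'A]
          exact hy'
        · show F (j s) = y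
          rw [hF2 s (hsB s hs)]
          exact hs
    have hnot : i y' ∉ j '' (g₄ ⁻¹' {y}) := by
      rintro ⟨s, hs, hsi⟩
      obtain ⟨z, hz1, hz2, hz3, hz4⟩ := (hij y' (hAA' hy'A) s (hBB' (hsB s hs))).1 hsi.symm
      have hz0 : z ≠ 0 := by
        rintro rfl
        rw [norm_zero] at hz1
        linarith
      have h3 : 1 < ‖z‖ := by
        by_contra hcon
        exact hy'A ⟨z, mem_closedBall_zero_iff.2 (not_lt.1 hcon), hz3.symm⟩
      refine hy ?_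
      have hs' : g₄ s = y := hs
      rw [← hs', hz4, hg₄q]
      rw [hinv z hz0]
      exact inv_le_one_of_one_le₀ h3.le
    have h4 := hg₄.ct y hy
    unfold cnt at h4 ⊢
    rw [hset, ncard_insert_of_notMem hnot (hfin.image _), ncard_image_of_injOn, h4]
    intro a ha b hb hab
    exact hji (hBB' (hsB a ha)) (hBB' (hsB b hb)) hab

/-- a constant map is in normal form -/
theorem NF_const (y₀ : N) : NF (fun _ : M => y₀) y₀ 0 := by
  refine ⟨fun _ => contMDiffAt_const, fun _ hx => absurd rfl hx, fun y hy => ?_⟩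
  have : (fun _ : M => y₀) ⁻¹' {y} = ∅ := by
    ext x
    simp only [mem_preimage, mem_singleton_iff, mem_empty_iff_false, iff_false]
    exact fun h => hy h.symm
  unfold cnt
  rw [this, ncard_empty]

end Pool.Agent.L0h29.RG
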