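import Pool.Agent.L0h29.RG.Inw
import Pool.Agent.N550.TS.Stm

/-!
# Project RG: the critical values lie in a cell
-/

set_option autoImplicit false

open Set Filter Topology Metric Function MeasureTheory
open scoped Manifold ContDiff

noncomputable section

namespace Pool.Agent.L0h29.RG

open Pool.Agent.Y522 Pool.Agent.N550.KH Pool.Agent.N550.KH.One Pool.Agent.L0h29.CS

theorem isDf_comp {n : ℕ} {N : Type} [TopologicalSpace N] [ChartedSpace (E n) N] {K κ : N → N}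
    (hK : IsDf n K) (hκ : IsDf n κ) : IsDf n (fun y => K (κ y)) :=
  ⟨hK.1.comp hκ.1, fun x => LD.comp_fun (g := K) (f := κ) (hK.2 _) (hκ.2 x)⟩

/-- one handle -/
theorem stepS (m k : ℕ) (hk : 2 ≤ k) (M N : Type)
    [TopologicalSpace M] [CompactSpace M] [T2Space M]
    [ChartedSpace (E (m + k)) M] [IsManifold (𝓡 (m + k)) ∞ M] [TopologicalSpace N]
    [T2Space N] [ChartedSpace (E (m + k)) N] [IsManifold (𝓡 (m + k)) ∞ N]
    (f : M → N) (Z : Set N) (h : Inw (m + k) f Z) (l : E (m + k) → N) (Y : Set N)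
    (hl : Injective l) (hld : ∀ z, LD (m + k) l z)
    (hY : ∀ z, l z ∈ Y ↔ 1 ≤ ‖up m k z‖) (κ : N → N) (hκ : IsDf (m + k) κ)
    (hYκ : Y ⊆ κ '' Reg (m + k) f Z) :
    ∃ κ' : N → N, IsDf (m + k) κ' ∧
      Y ∪ l '' {z | vp m k z = 0 ∧ ‖up m k z‖ ≤ 1} ⊆ κ' '' Reg (m + k) f Z := by
  obtain ⟨K, hK, hKY, hKl⟩ := stepH m k hk M N (fun x => κ (f x)) (κ '' Z) (h.comp hκ) l Y hl hld hY
  rw [reg_comp hκ] at hKl
  have himg : ∀ O : Set N, (fun y => K (κ y)) '' O = K '' (κ '' O) := fun O => by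
    rw [image_image]
  refine ⟨fun y => K (κ y), isDf_comp hK hκ, ?_⟩
  rw [himg]
  rintro y (hy | ⟨z, ⟨hz1, hz2⟩, rfl⟩)
  · obtain ⟨y', rfl⟩ := hK.1.2 y
    exact ⟨y', hYκ ((hKY y').1 hy), rfl⟩
  · exact hKl z hz1 (by linarith)

/-- the critical values lie in a cell, up to a diffeomorphism -/
theorem amb (M N : Type) [TopologicalSpace M] [CompactSpace M] [T2Space M] [ChartedSpace (E 4) M]
    [IsManifold (𝓡 4) ∞ M] [TopologicalSpace N] [CompactSpace N] [T2Space N]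
    [ChartedSpace (E 4) N] [IsManifold (𝓡 4) ∞ N] (a d : ℕ) (b : E 4 → N)
    (l : Fin a → E (1 + 3) → N) (K : Set N) (h : Fin d → E (2 + 2) → N) (c : E 4 → N)
    (H : Pool.Agent.N550.TS.Handles2 N a d b l K h c) (f : M → N) (Z : Set N)
    (hf : Inw 4 f Z) :
    ∃ (κ : N → N) (R : ℝ), 0 < R ∧ IsDf 4 κ ∧ ∀ y, y ∉ c '' closedBall 0 R → y ∈ κ '' Reg 4 f Z := by
  -- the 0-handle
  have step0 : ∃ κ : N → N, IsDf 4 κ ∧ b '' closedBall 0 1 ⊆ κ '' Reg 4 f Z := by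
    obtain ⟨K₀, hK₀, -, hK₀l⟩ := stepH 1 3 (by norm_num) M N f Z hf (b : E (1 + 3) → N)
      (b '' {z | 1 ≤ ‖up 1 3 z‖}) H.b_inj H.b_ld (fun z => by
        constructor
        · rintro ⟨w, hw, hwz⟩
          rw [← H.b_inj hwz]
          exact hw
        · exact fun hz => ⟨z, hz, rfl⟩)
    have h0 : b 0 ∈ K₀ '' Reg 4 f Z := by
      refine hK₀l 0 (map_zero _) ?_
      rw [map_zero, norm_zero]
      norm_num
    have h1 : IsOpen (K₀ '' Reg 4 f Z) := by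
      refine isOpen_image_of_LD (n := 4) (isOpen_reg hf) fun x _ => hK₀.2 x
    have h2 : b ⁻¹' (K₀ '' Reg 4 f Z) ∈ 𝓝 (0 : E 4) :=
      (H.b_ld 0).continuousAt (h1.mem_nhds h0)
    obtain ⟨ε, hε, hεb⟩ := Metric.mem_nhds_iff.1 h2
    obtain ⟨κ, hκ, hκs, hκb⟩ := Shift.main.2.2 4 0 ε 1 hε
    obtain ⟨K, hK, hKb, -⟩ := Supp.main 4 N b H.b_inj H.b_ld κ hκ hκs
    refine ⟨fun y => K (K₀ y), isDf_comp hK hK₀, ?_⟩
    have himg : (fun y => K (K₀ y)) '' Reg 4 f Z = K '' (K₀ '' Reg 4 f Z) := by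
      rw [image_image]
    rw [himg]
    rintro _ ⟨z, hz, rfl⟩
    obtain ⟨w, hw, rfl⟩ := hκb hz
    exact ⟨b w, hεb hw, hKb w⟩
  -- the 1-handles
  have step1 : ∀ j : ℕ, j ≤ a → ∃ κ : N → N, IsDf 4 κ ∧
      b '' closedBall 0 1 ∪ (⋃ (i : Fin a) (_ : (i : ℕ) < j),
        l i '' {z | vp 1 3 z = 0 ∧ ‖up 1 3 z‖ ≤ 1}) ⊆ κ '' Reg 4 f Z := by
    intro j
    induction j with
    | zero =>
      intro _
      obtain ⟨κ, hκ, hκb⟩ := step0
      refine ⟨κ, hκ, ?_⟩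
      rintro y (hy | hy)
      · exact hκb hy
      · simp at hy
    | succ j ih =>
      intro hj
      obtain ⟨κ, hκ, hκb⟩ := ih (by omega)
      obtain ⟨κ', hκ', hκb'⟩ := stepS 1 3 (by norm_num) M N f Z hf
        (l ⟨j, by omega⟩) _ (H.l_inj _) (H.l_ld _) (fun z => by
          rw [← H.l_att ⟨j, by omega⟩ z]
          constructor
          · rintro (hz | hz)
            · exact hz
            · obtain ⟨i, hi, w, -, hw⟩ := mem_iUnion₂.1 hz
              refine absurd hw.symm (H.l_dis _ _ z w ?_)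
              intro hcon
              rw [← hcon] at hi
              exact absurd hi (by simp)
          · exact fun hz => Or.inl hz) κ hκ hκb
      refine ⟨κ', hκ', fun y hy => hκb' ?_⟩
      rcases hy with hy | hy
      · exact Or.inl (Or.inl hy)
      · obtain ⟨i, hi, w, hw, hwx⟩ := mem_iUnion₂.1 hy
        rcases Nat.lt_succ_iff_lt_or_eq.1 hi with h1 | h1
        · exact Or.inl (Or.inr (mem_iUnion₂.2 ⟨i, h1, w, hw, hwx⟩))
        · refine Or.inr ⟨w, hw, ?_⟩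
          have : i = ⟨j, by omega⟩ := Fin.ext h1
          rw [← this]
          exact hwx
  obtain ⟨κ1, hκ1, hκb1⟩ := step1 a le_rfl
  -- the compression
  have hop : ∀ κ : N → N, IsDf 4 κ → IsOpen (κ '' Reg 4 f Z) := fun κ hκ =>
    isOpen_image_of_LD (n := 4) (isOpen_reg hf) fun x _ => hκ.2 x
  obtain ⟨κ, hκ, hKκ⟩ := H.K_cmp _ (hop κ1 hκ1) (fun y hy => hκb1 (by
    rcases hy with hy | hy
    · exact Or.inl hy
    · obtain ⟨i, hi⟩ := mem_iUnion.1 hy
      exact Or.inr (mem_iUnion₂.2 ⟨i, i.2, hi⟩)))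
  have step1' : ∃ κ2 : N → N, IsDf 4 κ2 ∧ K ⊆ κ2 '' Reg 4 f Z := by
    refine ⟨fun y => κ (κ1 y), isDf_comp hκ hκ1, ?_⟩
    rw [← image_image]
    exact hKκ
  -- the 2-handles
  have step2 : ∀ j : ℕ, j ≤ d → ∃ κ : N → N, IsDf 4 κ ∧
      K ∪ (⋃ (i : Fin d) (_ : (i : ℕ) < j),
        h i '' {z | vp 2 2 z = 0 ∧ ‖up 2 2 z‖ ≤ 1}) ⊆ κ '' Reg 4 f Z := by
    intro j
    induction j with
    | zero =>
      intro _
      obtain ⟨κ, hκ, hκb⟩ := step1'
      refine ⟨κ, hκ, ?_⟩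
      rintro y (hy | hy)
      · exact hκb hy
      · simp at hy
    | succ j ih =>
      intro hj
      obtain ⟨κ, hκ, hκb⟩ := ih (by omega)
      obtain ⟨κ', hκ', hκb'⟩ := stepS 2 2 (by norm_num) M N f Z hf
        (h ⟨j, by omega⟩) _ (H.h_inj _) (H.h_ld _) (fun z => by
          rw [← H.h_att ⟨j, by omega⟩ z]
          constructor
          · rintro (hz | hz)
            · exact hz
            · obtain ⟨i, hi, w, -, hw⟩ := mem_iUnion₂.1 hz
              refine absurd hw.symm (H.h_dis _ _ z w ?_)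
              intro hcon
              rw [← hcon] at hi
              exact absurd hi (by simp)
          · exact fun hz => Or.inl hz) κ hκ hκb
      refine ⟨κ', hκ', fun y hy => hκb' ?_⟩
      rcases hy with hy | hy
      · exact Or.inl (Or.inl hy)
      · obtain ⟨i, hi, w, hw, hwx⟩ := mem_iUnion₂.1 hy
        rcases Nat.lt_succ_iff_lt_or_eq.1 hi with h1 | h1
        · exact Or.inl (Or.inr (mem_iUnion₂.2 ⟨i, h1, w, hw, hwx⟩))
        · refine Or.inr ⟨w, hw, ?_⟩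
          have : i = ⟨j, by omega⟩ := Fin.ext h1
          rw [← this]
          exact hwx
  obtain ⟨κ4, hκ4, hκb4⟩ := step2 d le_rfl
  obtain ⟨κ5, hκ5, hcκ⟩ := H.c_cmp _ (hop κ4 hκ4) (fun y hy => hκb4 (by
    rcases hy with hy | hy
    · exact Or.inl hy
    · obtain ⟨i, hi⟩ := mem_iUnion.1 hy
      exact Or.inr (mem_iUnion₂.2 ⟨i, i.2, hi⟩)))
  have hD : IsDf 4 (fun y => κ5 (κ4 y)) := isDf_comp hκ5 hκ4
  rw [image_image] at hcκ
  -- the radius
  have hcpt : IsCompact ((fun y => κ5 (κ4 y)) '' Reg 4 f Z)ᶜ := (hop _ hD).isClosed_compl.isCompact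
  have hcov : ((fun y => κ5 (κ4 y)) '' Reg 4 f Z)ᶜ ⊆ ⋃ i : ℕ, c '' ball 0 (i : ℝ) := by
    intro y hy
    have h1 : y ∈ range c := by
      by_contra hcon
      exact hy (hcκ hcon)
    obtain ⟨z, rfl⟩ := h1
    obtain ⟨i, hi⟩ := exists_nat_gt ‖z‖
    exact mem_iUnion.2 ⟨i, z, mem_ball_zero_iff.2 hi, rfl⟩
  obtain ⟨i, hi⟩ := hcpt.elim_directed_cover _
    (fun i => isOpen_image_of_LD (n := 4) isOpen_ball fun z _ => H.c_ld z) hcov
    (directed_of_isDirected_le (fun i j hij => image_mono (ball_subset_ball (by exact_mod_cast hij))))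
  refine ⟨_, (i : ℝ) + 1, by positivity, hD, fun y hy => ?_⟩
  by_contra hcon
  obtain ⟨z, hz, hzy⟩ := hi hcon
  refine hy ⟨z, ?_, hzy⟩
  rw [mem_closedBall_zero_iff]
  have := mem_ball_zero_iff.1 hz
  linarith

end Pool.Agent.L0h29.RG
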