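import Pool.Agent.L0h7.RG.Stm

/-! # Euler characteristics of resolutions: first properties -/

set_option autoImplicit false

noncomputable section

namespace Pool.Agent.L0h29.RG

open Pool.Agent.Y75.NK Pool.Agent.L0h7.RG Matrix

/-- the complementary idempotent -/
def co {A : Type} [Ring A] (e : Idem A) : Idem A where
  n := e.n
  e := 1 - e.e
  idem := by
    rw [mul_sub, sub_mul, sub_mul, one_mul, one_mul, mul_one, e.idem, sub_self, sub_zero]

theorem ker_vecMul {A : Type} [Ring A] (e : Idem A) :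
    LinearMap.ker e.e.vecMulLinear = W (co e) := by
  change LinearMap.ker e.e.vecMulLinear =
    LinearMap.range (1 - e.e : Matrix (Fin e.n) (Fin e.n) A).vecMulLinear
  ext v
  constructor
  · intro hv
    rw [LinearMap.mem_ker] at hv
    change v ᵥ* e.e = 0 at hv
    refine ⟨v, ?_⟩
    change v ᵥ* (1 - e.e) = v
    rw [Matrix.vecMul_sub, Matrix.vecMul_one, hv, sub_zero]
  · rintro ⟨w, rfl⟩
    rw [LinearMap.mem_ker]
    change (w ᵥ* (1 - e.e)) ᵥ* e.e = 0
    rw [Matrix.vecMul_vecMul, sub_mul, one_mul, e.idem, sub_self, Matrix.vecMul_zero]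

theorem W_fr {A : Type} [Ring A] (k : ℕ) : W (fr A k) = ⊤ := by
  rw [eq_top_iff]
  intro v _
  refine ⟨v, ?_⟩
  change v ᵥ* (1 : Matrix (Fin k) (Fin k) A) = v
  exact Matrix.vecMul_one v

/-- the free module -/
def frEquiv (A : Type) [Ring A] (k : ℕ) : W (fr A k) ≃ₗ[A] (Fin k → A) :=
  (LinearEquiv.ofEq _ _ (W_fr k)).trans Submodule.topEquiv

/-- the free module is the sum of the images of `e` and `1 - e` -/
def splitAux {A : Type} [Ring A] {n : ℕ} (e : Matrix (Fin n) (Fin n) A) (he : e * e = e) :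
    (Fin n → A) ≃ₗ[A] LinearMap.range e.vecMulLinear ×
      LinearMap.range (1 - e : Matrix (Fin n) (Fin n) A).vecMulLinear :=
  LinearEquiv.ofLinearMap
    (e.vecMulLinear.rangeRestrict.prod
      ((1 - e : Matrix (Fin n) (Fin n) A).vecMulLinear.rangeRestrict))
    ((LinearMap.range e.vecMulLinear).subtype.coprod
      (LinearMap.range (1 - e : Matrix (Fin n) (Fin n) A).vecMulLinear).subtype)
    (by
      apply LinearMap.ext
      rintro ⟨⟨_, v, rfl⟩, ⟨_, w, rfl⟩⟩
      apply Prod.ext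
      · apply Subtype.ext
        change (v ᵥ* e + w ᵥ* (1 - e)) ᵥ* e = v ᵥ* e
        rw [Matrix.add_vecMul, Matrix.vecMul_vecMul, Matrix.vecMul_vecMul, sub_mul, one_mul,
          he, sub_self, Matrix.vecMul_zero, add_zero]
      · apply Subtype.ext
        change (v ᵥ* e + w ᵥ* (1 - e)) ᵥ* (1 - e) = w ᵥ* (1 - e)
        have h1 : e * (1 - e) = 0 := by rw [mul_sub, mul_one, he, sub_self]
        have h2 : (1 - e) * (1 - e) = 1 - e := by
          rw [sub_mul, one_mul, h1, sub_zero]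
        rw [Matrix.add_vecMul, Matrix.vecMul_vecMul, Matrix.vecMul_vecMul, h1, h2,
          Matrix.vecMul_zero, zero_add])
    (by
      apply LinearMap.ext
      intro v
      change v ᵥ* e + v ᵥ* (1 - e) = v
      rw [Matrix.vecMul_sub, Matrix.vecMul_one, add_sub_cancel])

/-- the free module is the sum of the images of `e` and `1 - e` -/
def splitEquiv {A : Type} [Ring A] (e : Idem A) : (Fin e.n → A) ≃ₗ[A] W e × W (co e) :=
  splitAux e.e e.idem

theorem cls_iso {A : Type} [Ring A] {e f : Idem A} (α : W e ≃ₗ[A] W f) : cls e = cls f :=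
  cls_eq (equiv_of_linearEquiv α)

theorem cls_co {A : Type} [Ring A] (e : Idem A) : cls (fr A e.n) = cls e + cls (co e) := by
  rw [← cls_sum]
  obtain ⟨β⟩ := W_sum e (co e)
  exact cls_iso (((frEquiv A e.n).trans (splitEquiv e)).trans β.symm)

theorem fr_sum {A : Type} [Ring A] (k l : ℕ) : (fr A k).sum (fr A l) = fr A (k + l) := by
  unfold Idem.sum fr
  congr 1
  change (Matrix.fromBlocks (1 : Matrix (Fin k) (Fin k) A) 0 0
    (1 : Matrix (Fin l) (Fin l) A)).submatrix finSumFinEquiv.symm finSumFinEquiv.symm = 1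
  rw [Matrix.fromBlocks_one, Matrix.submatrix_one_equiv]

theorem cls_fr_add {A : Type} [Ring A] (k l : ℕ) :
    cls (fr A (k + l)) = cls (fr A k) + cls (fr A l) := by
  rw [← fr_sum, cls_sum]

/-- the kernel of a product of maps -/
def kerProd {A P Q M N : Type} [Ring A] [AddCommGroup P] [Module A P] [AddCommGroup Q]
    [Module A Q] [AddCommGroup M] [Module A M] [AddCommGroup N] [Module A N]
    (f : P →ₗ[A] M) (g : Q →ₗ[A] N) :
    LinearMap.ker (f.prodMap g) ≃ₗ[A] LinearMap.ker f × LinearMap.ker g where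
  toFun x := (⟨x.1.1, congrArg Prod.fst (LinearMap.mem_ker.1 x.2)⟩,
    ⟨x.1.2, congrArg Prod.snd (LinearMap.mem_ker.1 x.2)⟩)
  invFun y := ⟨(y.1.1, y.2.1), LinearMap.mem_ker.2
    (Prod.ext (LinearMap.mem_ker.1 y.1.2) (LinearMap.mem_ker.1 y.2.2))⟩
  left_inv x := rfl
  right_inv y := rfl
  map_add' x y := rfl
  map_smul' a x := rfl

/-- the kernel of the composition with an equivalence -/
def kerComp {A P Q M : Type} [Ring A] [AddCommGroup P] [Module A P] [AddCommGroup Q]
    [Module A Q] [AddCommGroup M] [Module A M] (T : P ≃ₗ[A] Q) (f : Q →ₗ[A] M) :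
    LinearMap.ker (f.comp T.toLinearMap) ≃ₗ[A] LinearMap.ker f where
  toFun x := ⟨T x.1, LinearMap.mem_ker.1 x.2⟩
  invFun y := ⟨T.symm y.1, by
    rw [LinearMap.mem_ker]
    change f (T (T.symm y.1)) = 0
    rw [T.apply_symm_apply]
    exact LinearMap.mem_ker.1 y.2⟩
  left_inv x := Subtype.ext (T.symm_apply_apply x.1)
  right_inv y := Subtype.ext (T.apply_symm_apply y.1)
  map_add' x y := Subtype.ext (map_add T x.1 y.1)
  map_smul' a x := Subtype.ext (map_smul T a x.1)

theorem ker_equiv {A P M N : Type} [Ring A] [AddCommGroup P] [Module A P]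
    [AddCommGroup M] [Module A M] [AddCommGroup N] [Module A N] (α : M ≃ₗ[A] N)
    (π : P →ₗ[A] M) : LinearMap.ker (α.toLinearMap.comp π) = LinearMap.ker π := by
  ext x
  rw [LinearMap.mem_ker, LinearMap.mem_ker]
  change α (π x) = 0 ↔ π x = 0
  exact α.map_eq_zero_iff

theorem ec_equiv {A : Type} [Ring A] : ∀ (n : ℕ) (M N : Type) [AddCommGroup M] [Module A M]
    [AddCommGroup N] [Module A N] (c : K0 A), (M ≃ₗ[A] N) → EC A n M c → EC A n N c
  | 0, M, N, _, _, _, _, c, α, h => by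
    obtain ⟨e, ⟨β⟩, hc⟩ := h
    exact ⟨e, ⟨α.symm.trans β⟩, hc⟩
  | n + 1, M, N, _, _, _, _, c, α, h => by
    obtain ⟨k, π, c', hs, h, hc⟩ := h
    exact ⟨k, α.toLinearMap.comp π, c', α.surjective.comp hs,
      ec_equiv n _ _ c' (LinearEquiv.ofEq _ _ (ker_equiv α π).symm) h, hc⟩

theorem ker_rangeRestrict {A : Type} [Ring A] (e : Idem A) :
    LinearMap.ker e.e.vecMulLinear.rangeRestrict = W (co e) := by
  rw [LinearMap.ker_rangeRestrict, ker_vecMul]

theorem ec_succ {A : Type} [Ring A] : ∀ (n : ℕ) (M : Type) [AddCommGroup M] [Module A M]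
    (c : K0 A), EC A n M c → EC A (n + 1) M c
  | 0, M, _, _, c, h => by
    obtain ⟨e, ⟨β⟩, hc⟩ := h
    refine ⟨e.n, β.symm.toLinearMap.comp e.e.vecMulLinear.rangeRestrict, cls (co e),
      β.symm.surjective.comp (LinearMap.surjective_rangeRestrict _), ⟨co e, ⟨?_⟩, rfl⟩, ?_⟩
    · exact LinearEquiv.ofEq _ _ ((ker_equiv β.symm _).trans (ker_rangeRestrict e))
    · rw [cls_co, hc, add_sub_cancel_right]
  | n + 1, M, _, _, c, h => by
    obtain ⟨k, π, c', hs, h, hc⟩ := h
    exact ⟨k, π, c', hs, ec_succ n _ c' h, hc⟩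

/-- functions on a sum -/
def appEquiv (A : Type) [Ring A] (k l : ℕ) :
    (Fin (k + l) → A) ≃ₗ[A] (Fin k → A) × (Fin l → A) :=
  (LinearEquiv.funCongrLeft A A finSumFinEquiv).trans
    (LinearEquiv.sumArrowLequivProdArrow (Fin k) (Fin l) A A)

theorem ec_prod {A : Type} [Ring A] : ∀ (n : ℕ) (M : Type) [AddCommGroup M] [Module A M]
    (c : K0 A), EC A n M c → ∀ e : Idem A, EC A n (M × W e) (c + cls e)
  | 0, M, _, _, c, h, e => by
    obtain ⟨f, ⟨β⟩, hc⟩ := h
    obtain ⟨γ⟩ := W_sum f e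
    refine ⟨f.sum e, ⟨(β.prodCongr (LinearEquiv.refl A (W e))).trans γ.symm⟩, ?_⟩
    rw [cls_sum, hc]
  | n + 1, M, _, _, c, h, e => by
    obtain ⟨k, π, c', hs, h, hc⟩ := h
    refine ⟨k + e.n, (π.prodMap e.e.vecMulLinear.rangeRestrict).comp
      (appEquiv A k e.n).toLinearMap, c' + cls (co e), ?_, ?_, ?_⟩
    · rintro ⟨x, y⟩
      obtain ⟨a, ha⟩ := hs x
      obtain ⟨b, hb⟩ := LinearMap.surjective_rangeRestrict e.e.vecMulLinear y
      refine ⟨(appEquiv A k e.n).symm (a, b), ?_⟩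
      change (π.prodMap e.e.vecMulLinear.rangeRestrict)
        ((appEquiv A k e.n) ((appEquiv A k e.n).symm (a, b))) = (x, y)
      rw [LinearEquiv.apply_symm_apply]
      exact Prod.ext ha hb
    · have T := kerComp (appEquiv A k e.n) (π.prodMap e.e.vecMulLinear.rangeRestrict)
      have T2 := kerProd π e.e.vecMulLinear.rangeRestrict
      have T3 : LinearMap.ker e.e.vecMulLinear.rangeRestrict ≃ₗ[A] W (co e) :=
        LinearEquiv.ofEq _ _ (ker_rangeRestrict e)
      exact ec_equiv n _ _ _ ((T.trans T2).trans ((LinearEquiv.refl A _).prodCongr T3)).symm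
        (ec_prod n _ c' h (co e))
    · rw [hc, cls_fr_add, cls_co e]
      abel

theorem exists_W {A : Type} [Ring A] (M : Type) [AddCommGroup M] [Module A M]
    [Module.Finite A M] [Module.Projective A M] : ∃ e : Idem A, Nonempty (M ≃ₗ[A] W e) := by
  classical
  obtain ⟨k, π, hπ⟩ := Module.Finite.exists_fin' A M
  obtain ⟨s, hs⟩ := Module.projective_lifting_property π LinearMap.id hπ
  have hs' : ∀ x, π (s x) = x := fun x => DFunLike.congr_fun hs x
  let e : Matrix (Fin k) (Fin k) A := LinearMap.toMatrixRight' (s.comp π)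
  have he : e.vecMulLinear = s.comp π := by
    have h1 : Matrix.toLinearMapRight' e = s.comp π := LinearEquiv.symm_apply_apply _ _
    rw [← h1]
    rfl
  have hi : e * e = e := by
    apply Matrix.toLinearMapRight'.injective
    rw [Matrix.toLinearMapRight'_mul]
    have h1 : Matrix.toLinearMapRight' e = s.comp π := LinearEquiv.symm_apply_apply _ _
    rw [h1]
    apply LinearMap.ext
    intro v
    change s (π (s (π v))) = s (π v)
    rw [hs']
  refine ⟨⟨k, e, hi⟩, ⟨?_⟩⟩
  have hr : LinearMap.range s = W (⟨k, e, hi⟩ : Idem A) := by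
    change LinearMap.range s = LinearMap.range e.vecMulLinear
    rw [he]
    ext v
    constructor
    · rintro ⟨x, rfl⟩
      obtain ⟨y, rfl⟩ := hπ x
      exact ⟨y, rfl⟩
    · rintro ⟨y, rfl⟩
      exact ⟨π y, rfl⟩
  have hinj : Function.Injective s := fun x y h => by
    rw [← hs' x, ← hs' y, h]
  exact (LinearEquiv.ofInjective s hinj).trans (LinearEquiv.ofEq _ _ hr)

theorem ec_exists {A : Type} [Ring A] : ∀ (n : ℕ) (M : Type) [AddCommGroup M] [Module A M],
    PD A n M → ∃ c, EC A n M c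
  | 0, M, _, _, h => by
    obtain ⟨h1, h2⟩ := h
    obtain ⟨e, he⟩ := exists_W (A := A) M
    exact ⟨cls e, e, he, rfl⟩
  | n + 1, M, _, _, h => by
    obtain ⟨k, π, hs, h⟩ := h
    obtain ⟨c', h'⟩ := ec_exists n _ h
    exact ⟨cls (fr A k) - c', k, π, c', hs, h', rfl⟩

theorem t_ECA : S_ECA := by
  refine ⟨?_, ?_, ?_, ?_⟩
  · intro A _ n M N _ _ _ _ c h hc
    obtain ⟨α⟩ := h
    exact ec_equiv n M N c α hc
  · intro A _ n M _ _ c h
    exact ec_succ n M c h
  · intro A _ n M _ _ c h e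
    exact ec_prod n M c h e
  · intro A _ n M _ _ h
    exact ec_exists n M h

end Pool.Agent.L0h29.RG
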