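import Pool.Agent.N550.KH.Shift
import Pool.Agent.N550.KH.Supp
import Pool.Agent.N550.KH.Zero
import Pool.Agent.L0h29.CS.Inv

/-!
# Project RG: maps whose critical points have rank at most one, over the complement of a small set
-/

set_option autoImplicit false

open Set Filter Topology Metric Function MeasureTheory
open scoped Manifold ContDiff

noncomputable section

namespace Pool.Agent.L0h29.RG

open Pool.Agent.Y522 Pool.Agent.N550.KH Pool.Agent.N550.KH.One Pool.Agent.L0h29.CS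

variable {n : ℕ} {M N : Type} [TopologicalSpace M] [ChartedSpace (E n) M]
  [TopologicalSpace N] [ChartedSpace (E n) N]

/-- the rank of `f` at `x` is at most one -/
def Flat (n : ℕ) {M N : Type} [TopologicalSpace M] [ChartedSpace (E n) M]
    [TopologicalSpace N] [ChartedSpace (E n) N] (f : M → N) (x : M) : Prop :=
  ∀ k : ℕ, 2 ≤ k → ∀ g : N → E k, ContMDiffAt (𝓡 n) (𝓡 k) ∞ g (f x) →
    ¬ Surjective (mfderiv (𝓡 n) (𝓡 k) (fun y => g (f y)) x)

/-- the class of maps -/
structure Inw (n : ℕ) {M N : Type} [TopologicalSpace M] [ChartedSpace (E n) M]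
    [TopologicalSpace N] [ChartedSpace (E n) N] (f : M → N) (Z : Set N) : Prop where
  cont : Continuous f
  closed : IsClosed Z
  null : NullH2 n Z
  sm : ∀ x, f x ∉ Z → Sm n f x
  dich : ∀ x, f x ∉ Z → LD n f x ∨ Flat n f x

/-- the regular values off `Z` -/
def Reg (n : ℕ) {M N : Type} [TopologicalSpace M] [ChartedSpace (E n) M]
    [TopologicalSpace N] [ChartedSpace (E n) N] (f : M → N) (Z : Set N) : Set N :=
  {y | y ∉ Z ∧ ∀ x, f x = y → LD n f x}

theorem isOpen_reg [CompactSpace M] [T2Space N] {f : M → N} {Z : Set N} (h : Inw n f Z) :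
    IsOpen (Reg n f Z) := by
  have h1 : Reg n f Z = (Z ∪ f '' {x | LD n f x}ᶜ)ᶜ := by
    ext y
    constructor
    · rintro ⟨hy1, hy2⟩ (hy | ⟨x, hx, rfl⟩)
      · exact hy1 hy
      · exact hx (hy2 x rfl)
    · intro hy
      rw [mem_compl_iff, mem_union, not_or] at hy
      refine ⟨hy.1, fun x hx => ?_⟩
      by_contra hcon
      exact hy.2 ⟨x, hcon, hx⟩
  rw [h1]
  have h2 : IsClosed {x | LD n f x}ᶜ := by
    have h3 : IsOpen {x | LD n f x} := by
      rw [isOpen_iff_mem_nhds]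
      intro x hx
      exact hx.eventually
    exact h3.isClosed_compl
  exact (h.closed.union (h2.isCompact.image h.cont).isClosed).isOpen_compl

omit [TopologicalSpace N] [ChartedSpace (E n) N] in
theorem image_eq {K K' : N → N} (h1 : ∀ x, K' (K x) = x) (h2 : ∀ y, K (K' y) = y) (Z : Set N) :
    K '' Z = K' ⁻¹' Z := by
  ext y
  constructor
  · rintro ⟨z, hz, rfl⟩
    show K' (K z) ∈ Z
    rw [h1]; exact hz
  · intro hy
    exact ⟨K' y, hy, h2 y⟩

theorem notMem_image {K : N → N} (_hK : IsDf n K) {Z : Set N} {y : N} (hy : K y ∉ K '' Z) :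
    y ∉ Z := fun h => hy ⟨y, h, rfl⟩

theorem flat_comp {f : M → N} {x : M} (h : Flat n f x) {K : N → N} (hK : IsDf n K) :
    Flat n (fun x => K (f x)) x := by
  intro k hk g hg
  exact h k hk (fun y => g (K y)) (ContMDiffAt.comp (g := g) (f x) hg (hK.2 _).contMDiffAt)

/-- composition with a diffeomorphism -/
theorem Inw.comp {f : M → N} {Z : Set N} (h : Inw n f Z) {K : N → N} (hK : IsDf n K) :
    Inw n (fun x => K (f x)) (K '' Z) := by
  obtain ⟨K', h1, h2, h3⟩ := IsDf_inv hK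
  have hKc : Continuous K := continuous_iff_continuousAt.2 fun x => (hK.2 x).continuousAt
  have hKc' : Continuous K' := continuous_iff_continuousAt.2 fun x => (h3 x).continuousAt
  refine ⟨hKc.comp h.cont, ?_, nullH2_image h.null hK, fun x hx => ?_, fun x hx => ?_⟩
  · rw [image_eq h1 h2]
    exact h.closed.preimage hKc'
  · exact sm_comp (f := f) (g := K) (h.sm x (notMem_image hK hx))
      (Eventually.of_forall fun y => (hK.2 y).contMDiffAt)
  · rcases h.dich x (notMem_image hK hx) with h4 | h4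
    · exact Or.inl (LD.comp_fun (g := K) (f := f) (hK.2 _) h4)
    · exact Or.inr (flat_comp h4 hK)

theorem reg_comp {f : M → N} {Z : Set N} {K : N → N} (hK : IsDf n K) :
    Reg n (fun x => K (f x)) (K '' Z) = K '' Reg n f Z := by
  obtain ⟨K', h1, h2, h3⟩ := IsDf_inv hK
  rw [image_eq h1 h2 Z, image_eq h1 h2 (Reg n f Z)]
  ext y
  constructor
  · rintro ⟨hy1, hy2⟩
    refine ⟨hy1, fun x hx => ?_⟩
    have h4 : LD n (fun x => K (f x)) x := hy2 x (by
      show K (f x) = y
      rw [hx, h2])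
    have h5 : LD n (fun x => K' (K (f x))) x := LD.comp_fun (g := K') (h3 _) h4
    exact h5.congr (Eventually.of_forall fun y => (h1 _).symm)
  · rintro ⟨hy1, hy2⟩
    refine ⟨hy1, fun x hx => ?_⟩
    refine LD.comp_fun (g := K) (f := f) (hK.2 _) (hy2 x ?_)
    rw [← hx, h1]

/-- most of the slices of a chart consist of regular values -/
theorem slice (m k : ℕ) (hk : 2 ≤ k) (M N : Type)
    [TopologicalSpace M] [CompactSpace M] [T2Space M]
    [ChartedSpace (E (m + k)) M] [IsManifold (𝓡 (m + k)) ∞ M] [TopologicalSpace N]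
    [T2Space N] [ChartedSpace (E (m + k)) N] [IsManifold (𝓡 (m + k)) ∞ N]
    (f : M → N) (Z : Set N) (h : Inw (m + k) f Z) (l : E (m + k) → N)
    (hl : Injective l) (hld : ∀ z, LD (m + k) l z) (ε : ℝ) (hε : 0 < ε) :
    ∃ y0 : E k, ‖y0‖ < ε ∧ ∀ z, vp m k z = y0 → l z ∈ Reg (m + k) f Z := by
  classical
  have hsc : SecondCountableTopology M :=
    ChartedSpace.secondCountable_of_sigmaCompact (E (m + k)) M
  let p : M → E k := fun x => if f x ∈ range l then vp m k (linv l (f x)) else 0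
  have hpin : ∀ x, f x ∈ range l → p x = vp m k (linv l (f x)) := fun x hx => if_pos hx
  have hpout : ∀ x, f x ∉ range l → p x = 0 := fun x hx => if_neg hx
  have hro : IsOpen (f ⁻¹' range l) := (open_range hld).preimage h.cont
  let G : Set M := f ⁻¹' range l ∩ f ⁻¹' Zᶜ
  have hG : IsOpen G := hro.inter (h.closed.isOpen_compl.preimage h.cont)
  have hp0 : ∀ x, f x ∈ range l → p =ᶠ[𝓝 x] fun y => vp m k (linv l (f y)) := by
    intro x hx
    filter_upwards [hro.mem_nhds hx] with y hy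
    exact hpin y hy
  have hpG : ∀ x ∈ G, ContMDiffAt (𝓡 (m + k)) (𝓡 k) ∞ p x := by
    rintro x ⟨⟨z, hz⟩, hxZ⟩
    have h1 : Sm (m + k) (fun y => linv l (f y)) x := by
      refine sm_comp (f := f) (g := linv l) (h.sm x hxZ) ?_
      rw [← hz]
      exact ld_sm (linv_ld hl hld z)
    have h2 : ContMDiffAt (𝓡 (m + k)) (𝓡 k) ∞ (fun y => vp m k (linv l (f y))) x :=
      (vp m k).contMDiff.contMDiffAt.comp x h1.self_of_nhds
    exact h2.congr_of_eventuallyEq (hp0 x ⟨z, hz⟩)
  let A : Set (E k) := vp m k '' (l ⁻¹' Z) ∪ {0}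
  have hA : volume A = 0 := by
    refine measure_union_null (vp_null hk (h.null l hl hld)) ?_
    refine volume_null hk ?_
    have := Measure.nullSingletonClass_hausdorff (E k) (d := 2) two_pos
    exact measure_singleton _
  have hGA : ∀ x, x ∉ G → p x ∈ A := by
    intro x hx
    by_cases h1 : f x ∈ range l
    · have h2 : f x ∈ Z := by
        by_contra h2
        exact hx ⟨h1, h2⟩
      left
      obtain ⟨z, hz⟩ := h1
      refine ⟨z, ?_, ?_⟩
      · show l z ∈ Z
        rw [hz]; exact h2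
      · rw [hpin x ⟨z, hz⟩, ← hz, linv_l hl]
    · right
      exact hpout x h1
  obtain ⟨y0, hy0, hy0A, hreg⟩ := Reg2.main m k M p G hG hpG A hA hGA (ball 0 ε) isOpen_ball
    ⟨0, mem_ball_self hε⟩
  rw [mem_ball_zero_iff] at hy0
  refine ⟨y0, hy0, fun z hz => ⟨fun hcon => hy0A (Or.inl ⟨z, hcon, hz⟩), fun x hx => ?_⟩⟩
  have hxr : f x ∈ range l := ⟨z, hx.symm⟩
  have h5 : p x = y0 := by rw [hpin x hxr, hx, linv_l hl, hz]
  obtain ⟨hxG, hsurj⟩ := hreg x h5
  rcases h.dich x hxG.2 with h6 | h6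
  · exact h6
  · exfalso
    refine h6 k hk (fun y => vp m k (linv l y)) ?_ ?_
    · rw [hx]
      exact ContMDiffAt.comp (g := vp m k) (l z) (vp m k).contMDiff.contMDiffAt
        (linv_ld hl hld z).contMDiffAt
    · rwa [← (hp0 x hxr).mfderiv_eq]

/-- a handle is moved by a vertical shift such that its core disc consists of regular values -/
theorem stepH (m k : ℕ) (hk : 2 ≤ k) (M N : Type)
    [TopologicalSpace M] [CompactSpace M] [T2Space M]
    [ChartedSpace (E (m + k)) M] [IsManifold (𝓡 (m + k)) ∞ M] [TopologicalSpace N]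
    [T2Space N] [ChartedSpace (E (m + k)) N] [IsManifold (𝓡 (m + k)) ∞ N]
    (f : M → N) (Z : Set N) (h : Inw (m + k) f Z) (l : E (m + k) → N) (Y : Set N)
    (hl : Injective l) (hld : ∀ z, LD (m + k) l z)
    (hY : ∀ z, l z ∈ Y ↔ 1 ≤ ‖up m k z‖) :
    ∃ K : N → N, IsDf (m + k) K ∧ (∀ y, K y ∈ Y ↔ y ∈ Y) ∧
      ∀ z, vp m k z = 0 → ‖up m k z‖ < 2 → l z ∈ K '' Reg (m + k) f Z := by
  obtain ⟨ρ, hρ, hVS'⟩ := Shift.main.2.1 m k
  obtain ⟨y0, hy0, hreg⟩ := slice m k hk M N f Z h l hl hld (min ρ 1) (lt_min hρ one_pos)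
  rw [lt_min_iff] at hy0
  obtain ⟨hyρ, hy1⟩ := hy0
  obtain ⟨κ, hκ, hκR, hκu, hκv⟩ := hVS' (-y0) (by rwa [norm_neg])
  obtain ⟨K, hK, hKl, hKo⟩ := Supp.main (m + k) N l hl hld κ hκ hκR
  refine ⟨K, hK, fun y => ?_, fun z h0 h2 => ?_⟩
  · by_cases h2 : y ∈ range l
    · obtain ⟨z, hz⟩ := h2
      rw [← hz, hKl, hY, hκu, hY]
    · rw [hKo _ h2]
  · have e3 : vp m k (κ (jn m k (up m k z) y0)) = 0 := by
      rw [hκv _ (by rw [up_jn]; exact h2.le) (by rw [vp_jn]; exact hy1.le), vp_jn]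
      exact add_neg_cancel y0
    have e2 : κ (jn m k (up m k z) y0) = z := by
      rw [← jn_up_vp m k (κ (jn m k (up m k z) y0)), e3, hκu, up_jn, ← h0, jn_up_vp]
    refine ⟨l (jn m k (up m k z) y0), hreg _ (vp_jn _ _ _ _), ?_⟩
    rw [hKl, e2]

end Pool.Agent.L0h29.RG
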