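import Pool.Agent.L0h29.RG.Norm
import Pool.Agent.L0h29.RG.Sum2
import Mathlib.Topology.Homotopy.Lifting

/-!
# Project RG: the sheets, and the decomposition
-/

set_option autoImplicit false
set_option linter.unusedSectionVars false

open Set Filter Topology Metric Function MeasureTheory
open scoped Manifold ContDiff

noncomputable section

namespace Pool.Agent.L0h29.RG

open Pool.Agent.Y522 Pool.Agent.N550.KH Pool.Agent.N550.KH.One Pool.Agent.N550.KH.Supp
  Pool.Agent.L0h29.CS Pool.Agent.N550.TS.Flm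

/-- `M` contains `k` disjoint copies of `N` minus the point `y₀` -/
def Sheets (n : ℕ) (N : Type) [TopologicalSpace N] [ChartedSpace (E n) N] (y₀ : N) (k : ℕ)
    (M : Type) [TopologicalSpace M] [ChartedSpace (E n) M] : Prop :=
  ∃ s : Fin k → N → M, (∀ j, InjOn (s j) {y₀}ᶜ) ∧ (∀ j y, y ≠ y₀ → LD n (s j) y) ∧
    ∀ i j, i ≠ j → ∀ y y', y ≠ y₀ → y' ≠ y₀ → s i y ≠ s j y'

section

variable {n : ℕ} {M N : Type} [TopologicalSpace M] [ChartedSpace (E n) M]
  [TopologicalSpace N] [ChartedSpace (E n) N]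

/-- a section -/
theorem exists_section [CompactSpace M] [T2Space M] [T2Space N] {g : M → N} (hg : Continuous g)
    {y₀ : N} [SimplyConnectedSpace ({y₀}ᶜ : Set N)] (hld : ∀ x, g x ≠ y₀ → LD n g x) {e : M}
    (he : g e ≠ y₀) :
    ∃ s : N → M, (∀ y, y ≠ y₀ → ContinuousAt s y) ∧ (∀ y, y ≠ y₀ → g (s y) = y) ∧ s (g e) = e := by
  classical
  have hop : IsOpen ({y₀}ᶜ : Set N) := isOpen_compl_singleton
  have hlc : LocallyPathConnectedSpace N := ChartedSpace.locallyPathConnectedSpace (E n) N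
  have hlc' : LocallyPathConnectedSpace ({y₀}ᶜ : Set N) := hop.locallyPathConnectedSpace
  obtain ⟨F, ⟨hF1, hF2⟩, -⟩ := (covering hg (O := {y₀}ᶜ) hld).existsUnique_continuousMap_lifts
    (⟨Subtype.val, continuous_subtype_val⟩ : C(({y₀}ᶜ : Set N), N)) (a₀ := ⟨g e, he⟩) (e₀ := e)
    rfl (fun a => a.2)
  refine ⟨fun y => if h : y ≠ y₀ then F ⟨y, h⟩ else e, fun y hy => ?_, fun y hy => ?_, ?_⟩
  · have h1 : ContinuousAt (fun y : ({y₀}ᶜ : Set N) => F y) ⟨y, hy⟩ := F.continuous.continuousAt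
    have h2 : ContinuousAt ((fun y => if h : y ≠ y₀ then F ⟨y, h⟩ else e) ∘
        (Subtype.val : ({y₀}ᶜ : Set N) → N)) ⟨y, hy⟩ := by
      refine h1.congr (Eventually.of_forall fun z => ?_)
      have hz : (z : N) ≠ y₀ := z.2
      simp [hz]
    exact (hop.isOpenEmbedding_subtypeVal.continuousAt_iff (x := ⟨y, hy⟩)).1 h2
  · simp only [ne_eq, hy, not_false_eq_true, dite_true]
    exact congrFun hF2 ⟨y, hy⟩
  · simp only [ne_eq, he, not_false_eq_true, dite_true]
    exact hF1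

/-- sections are local diffeomorphisms -/
theorem section_ld {g : M → N} {s : N → M} {y : N} (hs : ContinuousAt s y)
    (hgs : ∀ᶠ y' in 𝓝 y, g (s y') = y') (hld : LD n g (s y)) : LD n s y := by
  obtain ⟨p, hp1, hp2, hp3, hp4⟩ := hld.exists_inverse
  have h0 : g (s y) = y := hgs.self_of_nhds
  rw [h0] at hp1 hp2 hp4
  refine hp1.congr ?_
  filter_upwards [hgs, hs.eventually hp3] with y' h1 h2
  rw [← h2, h1]

/-- uniqueness of sections -/
theorem section_unique [T2Space M] [T2Space N] {g : M → N} {y₀ : N}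
    (hpre : IsPreconnected ({y₀}ᶜ : Set N))
    (hld : ∀ x, g x ≠ y₀ → LD n g x) {s s' : N → M} (hs : ∀ y, y ≠ y₀ → ContinuousAt s y)
    (hs' : ∀ y, y ≠ y₀ → ContinuousAt s' y) (hgs : ∀ y, y ≠ y₀ → g (s y) = y)
    (hgs' : ∀ y, y ≠ y₀ → g (s' y) = y) {y₁ : N} (hy₁ : y₁ ≠ y₀) (h : s y₁ = s' y₁) {y : N}
    (hy : y ≠ y₀) : s y = s' y := by
  have hop : IsOpen ({y₀}ᶜ : Set N) := isOpen_compl_singleton
  have hU : IsOpen {y | y ≠ y₀ ∧ s y = s' y} := by
    rw [isOpen_iff_mem_nhds]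
    rintro y ⟨h1, h2⟩
    have hl : LD n g (s y) := hld _ (by rw [hgs y h1]; exact h1)
    obtain ⟨p, -, -, hp3, -⟩ := hl.exists_inverse
    have hp3' : ∀ᶠ x in 𝓝 (s' y), p (g x) = x := by rw [← h2]; exact hp3
    filter_upwards [hop.mem_nhds h1, (hs y h1).eventually hp3, (hs' y h1).eventually hp3']
      with y' h3 h4 h5
    refine ⟨h3, ?_⟩
    rw [← h4, ← h5, hgs y' h3, hgs' y' h3]
  have hV : IsOpen {y | y ≠ y₀ ∧ s y ≠ s' y} := by
    rw [isOpen_iff_mem_nhds]
    rintro y ⟨h1, h2⟩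
    have h3 : ∀ᶠ y' in 𝓝 y, s y' ≠ s' y' := by
      have h4 : Tendsto (fun y' => (s y', s' y')) (𝓝 y) (𝓝 (s y, s' y)) :=
        (hs y h1).prodMk_nhds (hs' y h1)
      exact h4.eventually (isClosed_diagonal.isOpen_compl.mem_nhds h2)
    filter_upwards [hop.mem_nhds h1, h3] with y' h4 h5
    exact ⟨h4, h5⟩
  have hsub := hpre.subset_left_of_subset_union hU hV
    (disjoint_left.2 fun y h1 h2 => h2.2 h1.2)
    (fun y hy => by
      by_cases h1 : s y = s' y
      · exact Or.inl ⟨hy, h1⟩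
      · exact Or.inr ⟨hy, h1⟩) ⟨y₁, hy₁, hy₁, h⟩
  exact (hsub hy).2

/-- the sheets of a map in normal form -/
theorem sheets_of_map [CompactSpace M] [T2Space M] [T2Space N] {g : M → N} (hg : Continuous g)
    {y₀ : N} [SimplyConnectedSpace ({y₀}ᶜ : Set N)] (hld : ∀ x, g x ≠ y₀ → LD n g x) {k : ℕ}
    (hk : ∀ y, y ≠ y₀ → cnt g y = k) (hne : ∃ y₁, y₁ ≠ y₀) : Sheets n N y₀ k M := by
  obtain ⟨y₁, hy₁⟩ := hne
  have hpre : IsPreconnected ({y₀}ᶜ : Set N) := by
    have h1 : IsPathConnected ({y₀}ᶜ : Set N) :=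
      isPathConnected_iff_pathConnectedSpace.2 inferInstance
    exact h1.isConnected.isPreconnected
  have hfin : Finite (g ⁻¹' {y₁}) := by
    have h1 := (covering (n := n) hg (O := {y₀}ᶜ) hld) y₁ hy₁
    have h2 : DiscreteTopology (g ⁻¹' {y₁}) := h1.1
    have h3 : CompactSpace (g ⁻¹' {y₁}) :=
      isCompact_iff_compactSpace.1 ((isClosed_singleton.preimage hg).isCompact)
    exact finite_of_compact_of_discrete
  have hcard : Nat.card (g ⁻¹' {y₁}) = k := hk y₁ hy₁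
  let en : Fin k ≃ g ⁻¹' {y₁} := (finCongr hcard.symm).trans (Finite.equivFin _).symm
  have hen : ∀ j, g (en j) = y₁ := fun j => (en j).2
  have hsec : ∀ j : Fin k, ∃ s : N → M, (∀ y, y ≠ y₀ → ContinuousAt s y) ∧
      (∀ y, y ≠ y₀ → g (s y) = y) ∧ s y₁ = en j := by
    intro j
    obtain ⟨s, h1, h2, h3⟩ := exists_section hg hld (e := (en j : M)) (by rw [hen]; exact hy₁)
    rw [hen] at h3
    exact ⟨s, h1, h2, h3⟩
  choose s hs1 hs2 hs3 using hsec
  refine ⟨s, fun j y hy y' hy' h => ?_, fun j y hy => ?_, fun i j hij y y' hy hy' h => hij ?_⟩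
  · rw [← hs2 j y hy, ← hs2 j y' hy', h]
  · refine section_ld (g := g) (hs1 j y hy) ?_ (hld _ (by rw [hs2 j y hy]; exact hy))
    filter_upwards [isOpen_compl_singleton.mem_nhds (show y ∈ ({y₀}ᶜ : Set N) from hy)] with y' h'
    exact hs2 j y' h'
  · have h1 : y = y' := by
      have := congrArg g h
      rwa [hs2 i y hy, hs2 j y' hy'] at this
    rw [← h1] at h
    have h2 := section_unique hpre hld (hs1 i) (hs1 j) (hs2 i) (hs2 j) hy h hy₁
    rw [hs3, hs3] at h2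
    exact en.injective (Subtype.ext h2)

/-- one sheet is split off -/
theorem split (hn : 0 < n) (k : ℕ) [CompactSpace M] [T2Space M] [ConnectedSpace M]
    [IsManifold (𝓡 n) ∞ M] [CompactSpace N] [T2Space N] [IsManifold (𝓡 n) ∞ N] (c : E n → N)
    (hc : Injective c) (hcl : ∀ z, LD n c z) (hcr : range c ≠ univ)
    (h : Sheets n N (c 0) (k + 1) M) :
    ∃ (P : Type) (_ : TopologicalSpace P) (_ : ChartedSpace (E n) P), CompactSpace P ∧
      T2Space P ∧ ConnectedSpace P ∧ IsManifold (𝓡 n) ∞ P ∧ ConnSum n M N P ∧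
      Sheets n N (c 0) k P := by
  classical
  obtain ⟨s, hs1, hs2, hs3⟩ := h
  set y₀ := c 0 with hy₀
  have hop : IsOpen ({y₀}ᶜ : Set N) := isOpen_compl_singleton
  let t : N → M := s (Fin.last k)
  have ht1 : InjOn t {y₀}ᶜ := hs1 _
  have ht2 : ∀ y, y ≠ y₀ → LD n t y := hs2 _
  let G : M → N := fun x => if h : ∃ y, y ≠ y₀ ∧ t y = x then h.choose else y₀
  have hG1 : ∀ y, y ≠ y₀ → G (t y) = y := by
    intro y hy
    have h : ∃ y', y' ≠ y₀ ∧ t y' = t y := ⟨y, hy, rfl⟩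
    show (if h : ∃ y', y' ≠ y₀ ∧ t y' = t y then h.choose else y₀) = y
    rw [dif_pos h]
    exact ht1 h.choose_spec.1 hy h.choose_spec.2
  have hG2 : ∀ x, (¬ ∃ y, y ≠ y₀ ∧ t y = x) → G x = y₀ := fun x hx => dif_neg hx
  have hGld : ∀ y, y ≠ y₀ → LD n G (t y) := by
    intro y hy
    exact LD.inverse (n := n) (k := t) (g := G) (U := {y₀}ᶜ) hop (fun x hx => ht2 x hx)
      (fun x hx => hG1 x hx) hy
  have hGc : Continuous G := by
    rw [continuous_iff_continuousAt]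
    intro x
    by_cases hx : ∃ y, y ≠ y₀ ∧ t y = x
    · obtain ⟨y, hy, rfl⟩ := hx
      exact (hGld y hy).continuousAt
    · rw [ContinuousAt, hG2 x hx, _root_.tendsto_nhds]
      intro W hW hyW
      have h1 : IsCompact Wᶜ := hW.isClosed_compl.isCompact
      have h2 : ∀ y ∈ Wᶜ, y ≠ y₀ := fun y hy hcon => hy (by rw [hcon]; exact hyW)
      have h3 : IsCompact (t '' Wᶜ) := h1.image_of_continuousOn fun y hy =>
        (ht2 y (h2 y hy)).continuousAt.continuousWithinAt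
      have h4 : x ∈ (t '' Wᶜ)ᶜ := by
        rintro ⟨y, hy, hyx⟩
        exact hx ⟨y, h2 y hy, hyx⟩
      filter_upwards [h3.isClosed.isOpen_compl.mem_nhds h4] with x' hx'
      by_cases h5 : ∃ y, y ≠ y₀ ∧ t y = x'
      · obtain ⟨y, hy, rfl⟩ := h5
        show G (t y) ∈ W
        rw [hG1 y hy]
        by_contra hcon
        exact hx' ⟨y, hcon, rfl⟩
      · show G x' ∈ W
        rw [hG2 x' h5]
        exact hyW
  obtain ⟨P, tP, cP, a1, a2, a3, a4, a5, u, hu1, hu2⟩ := exists_connSum2 n hn M N G hGc c hc hcl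
    (fun y hy => by
      have hy0 : y ≠ y₀ := fun hcon => hy ⟨0, by
        rw [mem_closedBall_zero_iff, norm_zero]; norm_num, hcon.symm⟩
      refine ⟨t y, hG1 y hy0, hGld y hy0, fun x' hx' => ?_⟩
      by_cases h5 : ∃ y, y ≠ y₀ ∧ t y = x'
      · obtain ⟨y', hy', rfl⟩ := h5
        rw [hG1 y' hy'] at hx'
        rw [hx']
      · rw [hG2 x' h5] at hx'
        exact absurd hx'.symm hy0)
  have hG0 : ∀ (j : Fin k) y, y ≠ y₀ → G (s j.castSucc y) = y₀ := by
    intro j y hy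
    apply hG2
    rintro ⟨y', hy', h6⟩
    exact hs3 (Fin.last k) j.castSucc (Fin.castSucc_lt_last j).ne' y' y hy' hy h6
  have hGr : ∀ (j : Fin k) y, y ≠ y₀ → G (s j.castSucc y) ∈ range c := fun j y hy => by
    rw [hG0 j y hy]; exact ⟨0, rfl⟩
  refine ⟨P, tP, cP, a1, a2, a5 hcr inferInstance, a3, a4, fun j y => u (s j.castSucc y),
    fun j y hy y' hy' h6 => ?_, fun j y hy => ?_, fun i j hij y y' hy hy' h6 => ?_⟩
  · exact hs1 _ hy hy' (hu2 (hGr j y hy) (hGr j y' hy') h6)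
  · exact LD.comp_fun (g := u) (f := s j.castSucc) (hu1 _ (hGr j y hy)) (hs2 _ y hy)
  · exact hs3 i.castSucc j.castSucc (fun hcon => hij (Fin.castSucc_injective _ hcon)) y y' hy hy'
      (hu2 (hGr i y hy) (hGr j y' hy') h6)

end

end Pool.Agent.L0h29.RG
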